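import Pool.Agent.H52M.JR

/-! An event which returns close to itself infinitely often, at times read off from a base point,
is independent of every system without rigid functions, given the base point. -/

set_option linter.style.longLine false
set_option linter.unusedSectionVars false
set_option linter.style.header false

namespace Pool.Agent.H52M

open MeasureTheory Filter Topology

section density

variable {Ω Z : Type*} [MeasurableSpace Ω] [MeasurableSpace Z]

/-- conditional probability of an event given a map -/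
lemma exists_density (P : Measure Ω) [IsProbabilityMeasure P] (Λ : Measure Z)
    [IsProbabilityMeasure Λ] {z : Ω → Z} (hz : Measurable z) (hlaw : P.map z = Λ) {E : Set Ω}
    (hE : MeasurableSet E) :
    ∃ Φ : Z → ℝ, Measurable Φ ∧ (∀ x, |Φ x| ≤ 1) ∧
      ∀ s : Z → ℝ, Measurable s →
        ∫ ω, s (z ω) * E.indicator (fun _ => (1 : ℝ)) ω ∂P = ∫ x, s x * Φ x ∂Λ := by
  let Q : Measure Z := (P.restrict E).map z
  have hQ : Q ≤ Λ := by
    rw [← hlaw]
    exact Measure.map_mono Measure.restrict_le_self hz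
  have hac : Q ≪ Λ := Measure.absolutelyContinuous_of_le hQ
  have hfin : IsFiniteMeasure Q := by
    have : IsFiniteMeasure (P.restrict E) := inferInstance
    exact Measure.isFiniteMeasure_map _ _
  have h1 : Q.rnDeriv Λ ≤ᵐ[Λ] 1 := Measure.rnDeriv_le_one_of_le hQ
  refine ⟨fun x => (min (Q.rnDeriv Λ x) 1).toReal, ?_, ?_, ?_⟩
  · exact ((Measure.measurable_rnDeriv Q Λ).min measurable_const).ennreal_toReal
  · intro x
    rw [abs_of_nonneg ENNReal.toReal_nonneg]
    have h2 : min (Q.rnDeriv Λ x) 1 ≤ 1 := min_le_right _ _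
    have h3 := ENNReal.toReal_mono ENNReal.one_ne_top h2
    simpa using h3
  · intro s hs
    have e1 : ∫ x, s x ∂Q = ∫ ω, s (z ω) * E.indicator (fun _ => (1 : ℝ)) ω ∂P := by
      rw [integral_map hz.aemeasurable hs.aestronglyMeasurable, ← integral_indicator hE]
      apply integral_congr_ae
      filter_upwards with ω
      by_cases h : ω ∈ E
      · simp [h]
      · simp [h]
    rw [← e1, ← integral_rnDeriv_smul hac]
    apply integral_congr_ae
    filter_upwards [h1] with x hx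
    have : min (Q.rnDeriv Λ x) 1 = Q.rnDeriv Λ x := min_eq_left hx
    rw [this, smul_eq_mul, mul_comm]

/-- the displacement of the conditional probability is at most that of the event -/
lemma disp_le {P : Measure Ω} [IsProbabilityMeasure P] {Λ : Measure Z}
    [IsProbabilityMeasure Λ] {τ : Ω → Ω} (hτ : MeasurePreserving τ P P) (V : Z ≃ᵐ Z)
    (hV : MeasurePreserving V Λ Λ) {z : Ω → Z} (hz : Measurable z)
    (hzτ : ∀ ω, z (τ ω) = V (z ω)) {E : Set Ω} (hE : MeasurableSet E) {Φ : Z → ℝ}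
    (hΦm : Measurable Φ) (hΦ1 : ∀ x, |Φ x| ≤ 1)
    (hΦ : ∀ s : Z → ℝ, Measurable s →
        ∫ ω, s (z ω) * E.indicator (fun _ => (1 : ℝ)) ω ∂P = ∫ x, s x * Φ x ∂Λ)
    {G : Set Z} (hG : MeasurableSet G) (k : ℕ) :
    ∫ x in G, |Φ (V^[k] x) - Φ x| ∂Λ ≤ ∫ ω in z ⁻¹' G,
      |E.indicator (fun _ => (1 : ℝ)) (τ^[k] ω) - E.indicator (fun _ => (1 : ℝ)) ω| ∂P := by
  classical
  let e : Ω → ℝ := E.indicator fun _ => (1 : ℝ)
  have he : Measurable e := measurable_const.indicator hE
  have he1 : ∀ ω, |e ω| ≤ 1 := by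
    intro ω
    by_cases h : ω ∈ E <;> simp [e, h]
  have hVk : Measurable (V^[k]) := hV.measurable.iterate k
  have hVsk : Measurable (V.symm^[k]) := V.symm.measurable.iterate k
  have hτk : Measurable (τ^[k]) := hτ.measurable.iterate k
  have hinv : ∀ x, V.symm^[k] (V^[k] x) = x := by
    intro x
    exact (Function.LeftInverse.iterate V.symm_apply_apply k) x
  have hzk : ∀ ω, z (τ^[k] ω) = V^[k] (z ω) := by
    induction k with
    | zero => intro ω; rfl
    | succ k ih =>
      intro ω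
      have ih2 := ih (hV.measurable.iterate k) (V.symm.measurable.iterate k)
        (hτ.measurable.iterate k) (Function.LeftInverse.iterate V.symm_apply_apply k)
      rw [Function.iterate_succ_apply, Function.iterate_succ_apply, ih2, hzτ]
  let sg : Z → ℝ := fun x => if Φ x ≤ Φ (V^[k] x) then 1 else -1
  have hsg : Measurable sg := Measurable.ite (measurableSet_le hΦm (hΦm.comp hVk))
    measurable_const measurable_const
  let s : Z → ℝ := G.indicator sg
  have hs : Measurable s := hsg.indicator hG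
  have hs1 : ∀ x, |s x| ≤ 1 := by
    intro x
    by_cases h : x ∈ G
    · simp only [s, Set.indicator_of_mem h, sg]
      split_ifs <;> simp
    · simp [s, h]
  have hbd : ∀ a b : ℝ, |a| ≤ 1 → |b| ≤ 1 → |a * b| ≤ 1 := by
    intro a b ha hb
    rw [abs_mul]
    have := abs_nonneg a
    have := abs_nonneg b
    nlinarith
  have i1 : Integrable (fun x => s x * Φ (V^[k] x)) Λ :=
    integrable_of_bdd (C := 1) (hs.mul (hΦm.comp hVk)) fun x => hbd _ _ (hs1 _) (hΦ1 _)
  have i2 : Integrable (fun x => s x * Φ x) Λ :=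
    integrable_of_bdd (C := 1) (hs.mul hΦm) fun x => hbd _ _ (hs1 _) (hΦ1 _)
  have e1 : ∫ x in G, |Φ (V^[k] x) - Φ x| ∂Λ
      = ∫ x, s x * Φ (V^[k] x) ∂Λ - ∫ x, s x * Φ x ∂Λ := by
    rw [← integral_sub i1 i2, ← integral_indicator hG]
    apply integral_congr_ae
    filter_upwards with x
    by_cases h : x ∈ G
    · simp only [Set.indicator_of_mem h, s, sg]
      split_ifs with h2
      · rw [abs_of_nonneg (by linarith)]; ring
      · rw [abs_of_neg (by linarith)]; ring
    · simp only [Set.indicator_of_notMem h, s]; ring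
  have e2 : ∫ x, s x * Φ (V^[k] x) ∂Λ = ∫ ω, s (z ω) * e (τ^[k] ω) ∂P := by
    have hs' : Measurable fun x => s (V.symm^[k] x) := hs.comp hVsk
    have a1 : ∫ x, s x * Φ (V^[k] x) ∂Λ = ∫ x, s (V.symm^[k] x) * Φ x ∂Λ := by
      rw [← integral_iter hV (u := fun x => s (V.symm^[k] x) * Φ x) (hs'.mul hΦm) k]
      simp only [hinv]
    have a2 := hΦ (fun x => s (V.symm^[k] x)) hs'
    have a3 : ∫ ω, s (V.symm^[k] (z ω)) * e ω ∂P = ∫ ω, s (z ω) * e (τ^[k] ω) ∂P := by
      rw [← integral_iter hτ (u := fun ω => s (V.symm^[k] (z ω)) * e ω)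
        ((hs'.comp hz).mul he) k]
      simp only [hzk, hinv]
    rw [a1, ← a2, ← a3]
  have e3 : ∫ x, s x * Φ x ∂Λ = ∫ ω, s (z ω) * e ω ∂P := (hΦ s hs).symm
  have j1 : Integrable (fun ω => s (z ω) * e (τ^[k] ω)) P :=
    integrable_of_bdd (C := 1) ((hs.comp hz).mul (he.comp hτk)) fun x => hbd _ _ (hs1 _) (he1 _)
  have j2 : Integrable (fun ω => s (z ω) * e ω) P :=
    integrable_of_bdd (C := 1) ((hs.comp hz).mul he) fun x => hbd _ _ (hs1 _) (he1 _)
  rw [e1, e2, e3, ← integral_sub j1 j2, ← integral_indicator (hz hG)]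
  have hm3 : Measurable fun ω => |e (τ^[k] ω) - e ω| := ((he.comp hτk).sub he).abs
  have j3 : Integrable ((z ⁻¹' G).indicator fun ω => |e (τ^[k] ω) - e ω|) P := by
    apply Integrable.indicator _ (hz hG)
    exact integrable_of_bdd (C := 2) hm3 fun ω => by
      rw [abs_abs]
      have a := abs_le.mp (he1 (τ^[k] ω))
      have b := abs_le.mp (he1 ω)
      rw [abs_le]
      constructor <;> linarith
  apply integral_mono (j1.sub j2) j3
  intro ω
  simp only [Pi.sub_apply]
  by_cases h : z ω ∈ G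
  · have h' : ω ∈ z ⁻¹' G := h
    rw [Set.indicator_of_mem h', ← mul_sub]
    calc s (z ω) * (e (τ^[k] ω) - e ω) ≤ |s (z ω) * (e (τ^[k] ω) - e ω)| := le_abs_self _
      _ = |s (z ω)| * |e (τ^[k] ω) - e ω| := abs_mul _ _
      _ ≤ 1 * |e (τ^[k] ω) - e ω| := mul_le_mul_of_nonneg_right (hs1 _) (abs_nonneg _)
      _ = _ := one_mul _
  · have h' : ω ∉ z ⁻¹' G := h
    rw [Set.indicator_of_notMem h']
    simp only [s, Set.indicator_of_notMem h]
    simp

end density

section main

variable {Ω W Y : Type*} [MeasurableSpace Ω] [MeasurableSpace W] [MeasurableSpace Y]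

/-- Conditional independence from systems without rigid functions. -/
theorem indep_of_rec (P : Measure Ω) [IsProbabilityMeasure P] (lam : Measure W)
    [IsProbabilityMeasure lam] (μ : Measure Y) [IsProbabilityMeasure μ]
    [MeasurableSpace.CountablyGenerated Y]
    {τ : Ω → Ω} (hτ : MeasurePreserving τ P P) (S : W ≃ᵐ W) (hS : MeasurePreserving S lam lam)
    (R : Y ≃ᵐ Y) (hR : MeasurePreserving R μ μ) (hRF : RF μ R)
    {w : Ω → W} (hw : Measurable w) (hwτ : ∀ ω, w (τ ω) = S (w ω))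
    {y : Ω → Y} (hy : Measurable y) (hyτ : ∀ ω, y (τ ω) = R (y ω))
    (hlaw : P.map (fun ω => (w ω, y ω)) = lam.prod μ)
    {E : Set Ω} (hE : MeasurableSet E)
    {d : W → ℕ → ℕ → ℝ} (hd : ∀ n m, Measurable fun x => d x n m)
    (hd1 : ∀ x n m, |d x n m| ≤ 1)
    (hde : ∀ k, ∀ A : Set W, MeasurableSet A → ∫ ω in w ⁻¹' A,
      |E.indicator (fun _ => (1 : ℝ)) (τ^[k] ω) - E.indicator (fun _ => (1 : ℝ)) ω| ∂P
        = ∫ x in A, d x 0 k ∂lam)
    (hjr : ∀ A : Set W, MeasurableSet A → lam A ≠ 0 → ∀ ε > 0, ∀ k₀ : ℕ,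
      ∃ k ≥ k₀, lam (A ∩ {x | d x 0 k < ε} ∩ S^[k] ⁻¹' A) ≠ 0)
    {A : Set W} (hA : MeasurableSet A) {C : Set Y} (hC : MeasurableSet C) :
    P.real (w ⁻¹' A ∩ y ⁻¹' C ∩ E) = P.real (w ⁻¹' A ∩ E) * μ.real C := by
  classical
  let V : W × Y ≃ᵐ W × Y := S.prodCongr R
  have hVap : ∀ z : W × Y, V z = Prod.map S R z := fun z => rfl
  have hVfun : (V : W × Y → W × Y) = Prod.map S R := rfl
  have hV : MeasurePreserving V (lam.prod μ) (lam.prod μ) := hS.prod hR
  have hz : Measurable fun ω => (w ω, y ω) := hw.prodMk hy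
  obtain ⟨Φ, hΦm, hΦ1, hΦ⟩ := exists_density P (lam.prod μ) hz hlaw hE
  have hzτ : ∀ ω, (w (τ ω), y (τ ω)) = V (w ω, y ω) := by
    intro ω
    rw [hwτ, hyτ]
    rfl
  have hVk : ∀ k (x : W) (v : Y), V^[k] (x, v) = (S^[k] x, R^[k] v) := by
    intro k x v
    rw [hVfun, iter_prod]
  have hmSk : ∀ k, Measurable S^[k] := fun k => hS.measurable.iterate k
  have hmRk : ∀ k, Measurable R^[k] := fun k => hR.measurable.iterate k
  have hmk : ∀ k, Measurable fun z : W × Y => |Φ (V^[k] z) - Φ z| := fun k =>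
    ((hΦm.comp (hV.measurable.iterate k)).sub hΦm).abs
  have hbk : ∀ k (z : W × Y), |(|Φ (V^[k] z) - Φ z|)| ≤ 2 := fun k z => by
    rw [abs_abs]
    have a := abs_le.mp (hΦ1 (V^[k] z))
    have b := abs_le.mp (hΦ1 z)
    rw [abs_le]
    constructor <;> linarith
  have hIk : ∀ k, Integrable (fun z : W × Y => |Φ (V^[k] z) - Φ z|) (lam.prod μ) := fun k =>
    integrable_of_bdd (hmk k) (hbk k)
  -- sections
  have hsect : ∀ᵐ x ∂lam, ∀ k, ∫ v, |Φ (S^[k] x, R^[k] v) - Φ (x, v)| ∂μ ≤ d x 0 k := by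
    rw [ae_all_iff]
    intro k
    apply ae_le_of_forall_setIntegral_le (f := fun x => ∫ v, |Φ (S^[k] x, R^[k] v) - Φ (x, v)| ∂μ)
      (g := fun x => d x 0 k)
    · have := (hIk k).integral_prod_left
      simpa only [hVk] using this
    · exact integrable_of_bdd (hd 0 k) fun x => hd1 x 0 k
    · intro A hA _
      have h1 := disp_le hτ V hV hz hzτ hE hΦm hΦ1 hΦ (hA.prod (MeasurableSet.univ (α := Y))) k
      have h2 : (fun ω => (w ω, y ω)) ⁻¹' (A ×ˢ (Set.univ : Set Y)) = w ⁻¹' A := by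
        ext ω
        simp
      rw [h2, hde k A hA, setIntegral_prod _ (hIk k).integrableOn] at h1
      simpa only [hVk, setIntegral_univ] using h1
  -- rigid sections
  have hsec : ∀ δ > 0, ∀ k₀ : ℕ, ∀ᵐ x ∂lam, ∃ k ≥ k₀,
      ∫ v, |Φ (x, R^[k] v) - Φ (x, v)| ∂μ < δ := by
    intro δ hδ k₀
    let D₀ : Set W := {x | ∀ k ≥ k₀, δ ≤ ∫ v, |Φ (x, R^[k] v) - Φ (x, v)| ∂μ}
    have hD₀ : MeasurableSet D₀ := by
      have : D₀ = ⋂ k : ℕ, {x | k₀ ≤ k → δ ≤ ∫ v, |Φ (x, R^[k] v) - Φ (x, v)| ∂μ} := by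
        ext x
        simp only [D₀, Set.mem_iInter]
        rfl
      rw [this]
      apply MeasurableSet.iInter
      intro k
      by_cases hk : k₀ ≤ k
      · simp only [hk, true_implies]
        have hm : Measurable fun z : W × Y => |Φ (z.1, R^[k] z.2) - Φ z| :=
          ((hΦm.comp (measurable_fst.prodMk ((hmRk k).comp measurable_snd))).sub hΦm).abs
        exact measurableSet_le measurable_const
          (hm.stronglyMeasurable.integral_prod_right').measurable
      · simp only [hk, false_implies]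
        exact MeasurableSet.univ
    suffices hnull : lam D₀ = 0 by
      rw [ae_iff]
      convert hnull using 2
      ext x
      simp only [D₀, Set.mem_ofPred_eq, not_exists, not_and, not_lt, ge_iff_le]
    by_contra hpos
    obtain ⟨g, A, hg, hgi, hA, hAD, hApos, hAg⟩ :=
      exists_cell lam μ hΦm hΦ1 hD₀ hpos (δ := δ / 4) (by positivity)
    obtain ⟨k, hk, hkne⟩ := hjr A hA hApos (δ / 4) (by positivity) k₀
    obtain ⟨x, hx, hx2⟩ : ∃ x ∈ A ∩ {x | d x 0 k < δ / 4} ∩ S^[k] ⁻¹' A,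
        ∀ k, ∫ v, |Φ (S^[k] x, R^[k] v) - Φ (x, v)| ∂μ ≤ d x 0 k := by
      by_contra hcon
      push Not at hcon
      apply hkne
      rw [← nonpos_iff_eq_zero]
      have hsub : A ∩ {x | d x 0 k < δ / 4} ∩ S^[k] ⁻¹' A
          ⊆ {x | ¬ ∀ k, ∫ v, |Φ (S^[k] x, R^[k] v) - Φ (x, v)| ∂μ ≤ d x 0 k} := by
        intro x hx
        simp only [Set.mem_ofPred_eq, not_forall, not_le]
        exact hcon x hx
      exact (measure_mono hsub).trans (ae_iff.mp hsect).le
    have hx3 : ∫ v, |Φ (S^[k] x, R^[k] v) - Φ (x, v)| ∂μ < δ / 4 :=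
      lt_of_le_of_lt (hx2 k) hx.1.2
    have hfin := through hR (a := fun v => Φ (x, v)) (b := fun v => Φ (S^[k] x, v))
      (hΦm.comp measurable_prodMk_left) (hΦm.comp measurable_prodMk_left) hg (fun _ => hΦ1 _)
      (fun _ => hΦ1 _) hgi k (hAg x hx.1.1) (hAg _ hx.2) hx3
    have := (hAD hx.1.1) k hk
    linarith
  have hconst := sections_const hRF hΦm hΦ1 hsec
  -- evaluation
  have hval : ∀ C : Set Y, MeasurableSet C → P.real (w ⁻¹' A ∩ y ⁻¹' C ∩ E)
      = (∫ x in A, (∫ v, Φ (x, v) ∂μ) ∂lam) * μ.real C := by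
    intro C hC
    have hAC : MeasurableSet (A ×ˢ C) := hA.prod hC
    have h1 := hΦ ((A ×ˢ C).indicator fun _ => (1 : ℝ)) (measurable_const.indicator hAC)
    have h2 : ∫ ω, (A ×ˢ C).indicator (fun _ => (1 : ℝ)) (w ω, y ω)
        * E.indicator (fun _ => (1 : ℝ)) ω ∂P = P.real (w ⁻¹' A ∩ y ⁻¹' C ∩ E) := by
      rw [← integral_indicator_one (((hw hA).inter (hy hC)).inter hE)]
      apply integral_congr_ae
      filter_upwards with ω
      by_cases a1 : w ω ∈ A <;> by_cases a2 : y ω ∈ C <;> by_cases a3 : ω ∈ E <;>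
        simp [a1, a2, a3, Set.indicator]
    have h3 : ∫ z, (A ×ˢ C).indicator (fun _ => (1 : ℝ)) z * Φ z ∂(lam.prod μ)
        = ∫ x in A, (∫ v in C, Φ (x, v) ∂μ) ∂lam := by
      have hI : Integrable Φ (lam.prod μ) := integrable_of_bdd hΦm hΦ1
      rw [← setIntegral_prod _ hI.integrableOn, ← integral_indicator hAC]
      apply integral_congr_ae
      filter_upwards with z
      by_cases h : z ∈ A ×ˢ C
      · simp [h]
      · simp [h]
    rw [← h2, h1, h3, ← integral_mul_const]
    apply setIntegral_congr_ae hA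
    filter_upwards [hconst] with x hx _
    rw [setIntegral_congr_ae (g := fun _ => ∫ v, Φ (x, v) ∂μ) hC (by
      filter_upwards [hx] with v hv _
      exact hv), setIntegral_const, smul_eq_mul, mul_comm]
  have h1 := hval C hC
  have h2 := hval Set.univ MeasurableSet.univ
  simp only [Set.preimage_univ, Set.inter_univ, probReal_univ, mul_one] at h2
  rw [h1, h2]

end main

end Pool.Agent.H52M
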