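import Pool.Agent.H52M.RF
import Pool.Agent.H52J.Core

/-! Joint recurrence of the base point and of the fibre at random times. -/

set_option linter.style.longLine false
set_option linter.unusedSectionVars false
set_option linter.style.header false

namespace Pool.Agent.H52M

open MeasureTheory Filter Topology Finset Pool.Agent.H52J

variable {W : Type*} [MeasurableSpace W]

theorem joint_rec (lam : Measure W) [IsProbabilityMeasure lam]
    {S : W → W} (hS : MeasurePreserving S lam lam)
    {d : W → ℕ → ℕ → ℝ} (hd : ∀ n m, Measurable fun x => d x n m)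
    (hsym : ∀ x n m, d x n m = d x m n) (hdiag : ∀ x n, d x n n = 0)
    (htri : ∀ x n l m, d x n m ≤ d x n l + d x l m)
    (hshift : ∀ x n k, d x n (n + k) = d (S^[n] x) 0 k)
    (hrec : ∀ ε > 0, ∀ᵐ x ∂lam, ∃ᶠ k in atTop, d x 0 k < ε)
    {A : Set W} (hA : MeasurableSet A) (hpos : lam A ≠ 0) {ε : ℝ} (hε : 0 < ε) (k₀ : ℕ) :
    ∃ k ≥ k₀, lam (A ∩ {x | d x 0 k < ε} ∩ S^[k] ⁻¹' A) ≠ 0 := by
  classical
  by_contra hcon
  push Not at hcon
  have hmS : ∀ n, Measurable S^[n] := fun n => hS.measurable.iterate n
  have hnull : ∀ᵐ x ∂lam, ∀ n k, k₀ ≤ k →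
      ¬(S^[n] x ∈ A ∧ d (S^[n] x) 0 k < ε ∧ S^[k] (S^[n] x) ∈ A) := by
    rw [ae_all_iff]; intro n
    rw [ae_all_iff]; intro k
    by_cases hk : k₀ ≤ k
    · have h0 := hcon k hk
      have hset : MeasurableSet (A ∩ {x | d x 0 k < ε} ∩ S^[k] ⁻¹' A) :=
        (hA.inter (measurableSet_lt (hd 0 k) measurable_const)).inter (hmS k hA)
      have h1 : lam (S^[n] ⁻¹' (A ∩ {x | d x 0 k < ε} ∩ S^[k] ⁻¹' A)) = 0 := by
        rw [(hS.iterate n).measure_preimage hset.nullMeasurableSet, h0]
      rw [← compl_mem_ae_iff] at h1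
      filter_upwards [h1] with x hx _ h2
      exact hx ⟨⟨h2.1, h2.2.1⟩, h2.2.2⟩
    · exact Eventually.of_forall fun x h => absurd h hk
  have ha : 0 < lam.real A := by
    rw [measureReal_def]
    exact ENNReal.toReal_pos hpos (measure_ne_top _ _)
  have hε2 : 0 < ε / 2 := by positivity
  -- pointwise estimate
  have hpt : ∀ κ : ℝ, 0 < κ → ∀ N : ℕ, ∀ᵐ x ∂lam,
      (∑ n ∈ range N, (S^[n] ⁻¹' A).indicator (fun _ => (1 : ℝ)) x)
        ≤ κ * ((k₀ + 1) * N) + 1 / (4 * κ) * invSum N (rel d (ε / 2) N x) := by
    intro κ hκ N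
    filter_upwards [hnull] with x hx
    let V := rel d (ε / 2) N x
    let E := (range N).filter fun n => S^[n] x ∈ A
    have hVmem : ∀ n m, (n, m) ∈ V ↔ (n < N ∧ m < N) ∧ d x n m < ε / 2 := by
      intro n m
      simp only [V, rel, mem_filter, mem_product, mem_range]
    have hs : ∀ a b, (a, b) ∈ V → (b, a) ∈ V := by
      intro a b h
      rw [hVmem] at h ⊢
      exact ⟨⟨h.1.2, h.1.1⟩, by rw [hsym]; exact h.2⟩
    have hr : ∀ a, a < N → (a, a) ∈ V := by
      intro a h
      rw [hVmem]
      exact ⟨⟨h, h⟩, by rw [hdiag]; exact hε2⟩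
    have e1 : (∑ n ∈ range N, (S^[n] ⁻¹' A).indicator (fun _ => (1 : ℝ)) x) = ∑ _n ∈ E, (1 : ℝ) := by
      simp only [E, Finset.sum_filter, Set.indicator_apply, Set.mem_preimage]
    have e2 : ∑ n ∈ E, ((nb N V n).card : ℝ) ≤ (k₀ + 1) * N := by
      have e3 : ∑ n ∈ E, ((nb N V n).card : ℝ)
          = ∑ m ∈ range N, ((E.filter fun n => (n, m) ∈ V).card : ℝ) := by
        simp only [nb, Finset.card_filter]
        push_cast
        rw [Finset.sum_comm]
      rw [e3]
      calc _ ≤ ∑ m ∈ range N, ((k₀ : ℝ) + 1) := by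
            apply Finset.sum_le_sum
            intro m _
            have hc : (E.filter fun n => (n, m) ∈ V).card ≤ k₀ + 1 := by
              rcases (E.filter fun n => (n, m) ∈ V).eq_empty_or_nonempty with h | h
              · rw [h]; simp
              · let n₀ := (E.filter fun n => (n, m) ∈ V).min' h
                have hn₀ := Finset.min'_mem _ h
                have hsub : (E.filter fun n => (n, m) ∈ V) ⊆ Ico n₀ (n₀ + (k₀ + 1)) := by
                  intro n hn
                  have hle : n₀ ≤ n := Finset.min'_le _ _ hn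
                  rw [mem_Ico]
                  refine ⟨hle, ?_⟩
                  by_contra hlt
                  obtain ⟨k, rfl⟩ := Nat.exists_eq_add_of_le hle
                  have hk : k₀ ≤ k := by omega
                  simp only [mem_filter, E, mem_range] at hn hn₀
                  have h3 := (hVmem _ _).1 hn.2
                  have h4 := (hVmem _ _).1 hn₀.2
                  have h5 : d x n₀ (n₀ + k) < ε := by
                    have := htri x n₀ m (n₀ + k)
                    rw [hsym x m (n₀ + k)] at this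
                    linarith [h3.2, h4.2]
                  rw [hshift] at h5
                  apply hx n₀ k hk
                  refine ⟨hn₀.1.2, h5, ?_⟩
                  rw [← Function.iterate_add_apply, add_comm k n₀]
                  exact hn.1.2
                have := Finset.card_le_card hsub
                rwa [Nat.card_Ico, Nat.add_sub_cancel_left] at this
            exact_mod_cast hc
        _ = (k₀ + 1) * N := by
            rw [Finset.sum_const, card_range, nsmul_eq_mul]
            ring
    have e4 : ∑ n ∈ E, 1 / ((nb N V n).card : ℝ) ≤ invSum N V := by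
      unfold invSum
      apply Finset.sum_le_sum_of_subset_of_nonneg (Finset.filter_subset _ _)
      intro n _ _
      positivity
    rw [e1]
    calc ∑ _n ∈ E, (1 : ℝ)
        ≤ ∑ n ∈ E, (κ * ((nb N V n).card : ℝ) + 1 / (4 * κ) * (1 / ((nb N V n).card : ℝ))) := by
          apply Finset.sum_le_sum
          intro n hn
          have hnN : n < N := by
            simp only [E, mem_filter, mem_range] at hn
            exact hn.1
          have hv := nb_pos hr hnN
          set v : ℝ := ((nb N V n).card : ℝ)
          have : κ * v + 1 / (4 * κ) * (1 / v) - 1 = (2 * κ * v - 1) ^ 2 / (4 * κ * v) := by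
            field_simp
            ring
          have h2 : 0 ≤ (2 * κ * v - 1) ^ 2 / (4 * κ * v) := by positivity
          linarith
      _ = κ * ∑ n ∈ E, ((nb N V n).card : ℝ) + 1 / (4 * κ) * ∑ n ∈ E, 1 / ((nb N V n).card : ℝ) := by
          rw [Finset.sum_add_distrib, Finset.mul_sum, Finset.mul_sum]
      _ ≤ _ := by
          have t1 := mul_le_mul_of_nonneg_left e2 hκ.le
          have t2 := mul_le_mul_of_nonneg_left e4 (show (0 : ℝ) ≤ 1 / (4 * κ) by positivity)
          linarith
  -- integrated estimate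
  have hint : ∀ κ : ℝ, 0 < κ → ∀ N : ℕ, (N : ℝ) * lam.real A
      ≤ κ * ((k₀ + 1) * N) + 1 / (4 * κ) * ∑ L ∈ range N, theta lam d (ε / 2) (L + 1) := by
    intro κ hκ N
    have hm := measurable_invSum (d := d) hd (ε / 2) N
    have hbd : ∀ x, |invSum N (rel d (ε / 2) N x)| ≤ N := by
      intro x
      unfold invSum
      refine (Finset.abs_sum_le_sum_abs _ _).trans ?_
      calc _ ≤ ∑ n ∈ range N, (1 : ℝ) := by
            apply Finset.sum_le_sum
            intro n _
            rw [abs_of_nonneg (by positivity)]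
            rcases Nat.eq_zero_or_pos (nb N (rel d (ε / 2) N x) n).card with h | h
            · rw [h]; simp
            · rw [div_le_one (by exact_mod_cast h)]
              exact_mod_cast h
        _ = N := by simp
    have hI1 : Integrable (fun x => ∑ n ∈ range N,
        (S^[n] ⁻¹' A).indicator (fun _ => (1 : ℝ)) x) lam :=
      integrable_finsetSum _ fun n _ => (integrable_const 1).indicator (hmS n hA)
    have hI2 : Integrable (fun x => κ * ((k₀ + 1) * N)
        + 1 / (4 * κ) * invSum N (rel d (ε / 2) N x)) lam :=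
      (integrable_const _).add ((integrable_of_bdd hm hbd).const_mul _)
    have h1 := integral_mono_ae hI1 hI2 (hpt κ hκ N)
    have e1 : ∫ x, (∑ n ∈ range N, (S^[n] ⁻¹' A).indicator (fun _ => (1 : ℝ)) x) ∂lam
        = N * lam.real A := by
      rw [integral_finsetSum _ fun n _ => (integrable_const 1).indicator (hmS n hA)]
      rw [Finset.sum_congr rfl fun n _ => show ∫ x, (S^[n] ⁻¹' A).indicator (fun _ => (1 : ℝ)) x ∂lam
        = lam.real A by
          rw [integral_indicator_const _ (hmS n hA), smul_eq_mul, mul_one, measureReal_def,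
            (hS.iterate n).measure_preimage hA.nullMeasurableSet]
          rfl]
      rw [Finset.sum_const, card_range, nsmul_eq_mul]
    have e2 : ∫ x, (κ * ((k₀ + 1) * N) + 1 / (4 * κ) * invSum N (rel d (ε / 2) N x)) ∂lam
        = κ * ((k₀ + 1) * N) + 1 / (4 * κ) * ∫ x, invSum N (rel d (ε / 2) N x) ∂lam := by
      rw [integral_add (integrable_const _) ((integrable_of_bdd hm hbd).const_mul _),
        integral_const, integral_const_mul]
      simp
    rw [e1, e2] at h1
    have h2 := invSum_le hd hdiag lam hS hshift hε2 N hm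
    have h3 := mul_le_mul_of_nonneg_left h2 (show (0 : ℝ) ≤ 1 / (4 * κ) by positivity)
    linarith
  -- conclusion
  let κ : ℝ := lam.real A / (4 * (k₀ + 1))
  have hκ : 0 < κ := by positivity
  have hth : Tendsto (fun N : ℕ => (N : ℝ)⁻¹ * ∑ L ∈ range N, theta lam d (ε / 2) (L + 1)) atTop
      (𝓝 0) :=
    ((tendsto_theta hd lam (hrec _ hε2)).comp (tendsto_add_atTop_nat 1)).cesaro
  have hth2 : Tendsto (fun N : ℕ =>
      1 / (4 * κ) * ((N : ℝ)⁻¹ * ∑ L ∈ range N, theta lam d (ε / 2) (L + 1))) atTop (𝓝 0) := by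
    have := hth.const_mul (1 / (4 * κ))
    rwa [mul_zero] at this
  obtain ⟨N, hN1, hN2⟩ : ∃ N : ℕ, 0 < N ∧
      1 / (4 * κ) * ((N : ℝ)⁻¹ * ∑ L ∈ range N, theta lam d (ε / 2) (L + 1)) < lam.real A / 4 := by
    have h1 := (tendsto_order.mp hth2).2 (lam.real A / 4) (by positivity)
    obtain ⟨N, h2, h3⟩ := (h1.and (eventually_gt_atTop 0)).exists
    exact ⟨N, h3, h2⟩
  have hN : (0 : ℝ) < N := by exact_mod_cast hN1
  have h3 := hint κ hκ N
  have h4 : 1 / (4 * κ) * ∑ L ∈ range N, theta lam d (ε / 2) (L + 1)
      = N * (1 / (4 * κ) * ((N : ℝ)⁻¹ * ∑ L ∈ range N, theta lam d (ε / 2) (L + 1))) := by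
    field_simp
  have h5 : κ * ((k₀ + 1) * N) = N * (lam.real A / 4) := by
    simp only [κ]
    field_simp
  rw [h4, h5] at h3
  have h6 : (N : ℝ) * lam.real A ≤ N * (lam.real A / 4 + lam.real A / 4) := by nlinarith
  have h7 := le_of_mul_le_mul_left h6 hN
  linarith

end Pool.Agent.H52M
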