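import Pool.Agent.H52M.Pi

/-! Maps whose powers converge weakly, along a sequence, to a proper mixture of the identity and
the projection onto constants. -/

set_option linter.style.longLine false
set_option linter.unusedSectionVars false
set_option linter.style.header false

namespace Pool.Agent.H52M

open MeasureTheory Filter Topology

section density

variable {Ω Z : Type*} [MeasurableSpace Ω] [MeasurableSpace Z]

/-- conditional expectation of a bounded function given a map -/
lemma exists_cond (P : Measure Ω) [IsProbabilityMeasure P] (Λ : Measure Z)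
    [IsProbabilityMeasure Λ] {z : Ω → Z} (hz : Measurable z) (hlaw : P.map z = Λ) {u : Ω → ℝ}
    (hu : Measurable u) (hu1 : ∀ ω, |u ω| ≤ 1) :
    ∃ Φ : Z → ℝ, Measurable Φ ∧ (∀ x, |Φ x| ≤ 1) ∧
      ∀ s : Z → ℝ, Measurable s → (∀ x, |s x| ≤ 1) →
        ∫ ω, s (z ω) * u ω ∂P = ∫ x, s x * Φ x ∂Λ := by
  let v : Ω → ℝ := fun ω => (u ω + 1) / 2
  have hv : Measurable v := (hu.add_const 1).div_const 2
  have hv0 : ∀ ω, 0 ≤ v ω := fun ω => by
    have := abs_le.mp (hu1 ω)
    simp only [v]; linarith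
  have hv1 : ∀ ω, v ω ≤ 1 := fun ω => by
    have := abs_le.mp (hu1 ω)
    simp only [v]; linarith
  let D : Ω → ENNReal := fun ω => ENNReal.ofReal (v ω)
  have hD : Measurable D := hv.ennreal_ofReal
  have hD1 : ∀ ω, D ω ≤ 1 := fun ω => by
    simp only [D]
    exact ENNReal.ofReal_le_one.mpr (hv1 ω)
  have hPD : P.withDensity D ≤ P := by
    calc P.withDensity D ≤ P.withDensity 1 :=
          withDensity_mono (Eventually.of_forall fun ω => hD1 ω)
      _ = P := withDensity_one
  let Q : Measure Z := (P.withDensity D).map z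
  have hQ : Q ≤ Λ := by
    rw [← hlaw]
    exact Measure.map_mono hPD hz
  have hac : Q ≪ Λ := Measure.absolutelyContinuous_of_le hQ
  have hfin0 : IsFiniteMeasure (P.withDensity D) := isFiniteMeasure_of_le P hPD
  have hfin : IsFiniteMeasure Q := Measure.isFiniteMeasure_map _ _
  have h1 : Q.rnDeriv Λ ≤ᵐ[Λ] 1 := Measure.rnDeriv_le_one_of_le hQ
  let Φ : Z → ℝ := fun x => (min (Q.rnDeriv Λ x) 1).toReal
  have hΦm : Measurable Φ :=
    ((Measure.measurable_rnDeriv Q Λ).min measurable_const).ennreal_toReal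
  have hΦ0 : ∀ x, 0 ≤ Φ x := fun x => ENNReal.toReal_nonneg
  have hΦ1 : ∀ x, Φ x ≤ 1 := fun x => by
    have h2 : min (Q.rnDeriv Λ x) 1 ≤ 1 := min_le_right _ _
    have h3 := ENNReal.toReal_mono ENNReal.one_ne_top h2
    simpa using h3
  have hΦ : ∀ s : Z → ℝ, Measurable s → (∀ x, |s x| ≤ 1) →
      ∫ ω, s (z ω) * v ω ∂P = ∫ x, s x * Φ x ∂Λ := by
    intro s hs _
    have e1 : ∫ x, s x ∂Q = ∫ ω, s (z ω) * v ω ∂P := by
      rw [integral_map hz.aemeasurable hs.aestronglyMeasurable,
        integral_withDensity_eq_integral_toReal_smul hD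
          (Eventually.of_forall fun ω => (hD1 ω).trans_lt ENNReal.one_lt_top)]
      apply integral_congr_ae
      filter_upwards with ω
      simp only [D]
      rw [ENNReal.toReal_ofReal (hv0 ω), smul_eq_mul, mul_comm]
    rw [← e1, ← integral_rnDeriv_smul hac]
    apply integral_congr_ae
    filter_upwards [h1] with x hx
    have : min (Q.rnDeriv Λ x) 1 = Q.rnDeriv Λ x := min_eq_left hx
    simp only [Φ]
    rw [this, smul_eq_mul, mul_comm]
  refine ⟨fun x => 2 * Φ x - 1, (hΦm.const_mul 2).sub_const 1, fun x => ?_, fun s hs hs1 => ?_⟩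
  · rw [abs_le]
    have := hΦ0 x
    have := hΦ1 x
    constructor <;> linarith
  · have hv1' : ∀ ω, |v ω| ≤ 1 := fun ω => by rw [abs_of_nonneg (hv0 ω)]; exact hv1 ω
    have hΦ1' : ∀ x, |Φ x| ≤ 1 := fun x => by rw [abs_of_nonneg (hΦ0 x)]; exact hΦ1 x
    have hbd : ∀ a b : ℝ, |a| ≤ 1 → |b| ≤ 1 → |a * b| ≤ 1 := by
      intro a b ha hb
      rw [abs_mul]
      have := abs_nonneg a
      have := abs_nonneg b
      nlinarith
    have i1 : Integrable (fun ω => s (z ω) * v ω) P :=
      integrable_of_bdd (C := 1) ((hs.comp hz).mul hv) fun ω => hbd _ _ (hs1 _) (hv1' _)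
    have i2 : Integrable (fun ω => s (z ω)) P :=
      integrable_of_bdd (C := 1) (hs.comp hz) fun ω => hs1 _
    have i3 : Integrable (fun x => s x * Φ x) Λ :=
      integrable_of_bdd (C := 1) (hs.mul hΦm) fun x => hbd _ _ (hs1 _) (hΦ1' _)
    have i4 : Integrable s Λ := integrable_of_bdd (C := 1) hs hs1
    have e1 : ∀ ω, s (z ω) * u ω = 2 * (s (z ω) * v ω) - s (z ω) := fun ω => by
      simp only [v]; ring
    have e2 : ∀ x, s x * (2 * Φ x - 1) = 2 * (s x * Φ x) - s x := fun x => by ring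
    simp only [e1, e2]
    rw [integral_sub (i1.const_mul 2) i2, integral_sub (i3.const_mul 2) i4, integral_const_mul,
      integral_const_mul, hΦ s hs hs1]
    congr 1
    rw [← hlaw, integral_map hz.aemeasurable hs.aestronglyMeasurable]

/-- weak convergence, from sets to bounded functions -/
lemma weak_ext (Λ : Measure Z) [IsProbabilityMeasure Λ] {G : ℕ → Z → ℝ} {G' : Z → ℝ}
    (hG : ∀ j, Measurable (G j)) (hG1 : ∀ j z, |G j z| ≤ 1) (hG' : Measurable G')
    (hG'1 : ∀ z, |G' z| ≤ 1)
    (h : ∀ H, MeasurableSet H →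
      Tendsto (fun j => ∫ z in H, G j z ∂Λ) atTop (𝓝 (∫ z in H, G' z ∂Λ)))
    {Φ : Z → ℝ} (hΦ : Integrable Φ Λ) :
    Tendsto (fun j => ∫ z, G j z * Φ z ∂Λ) atTop (𝓝 (∫ z, G' z * Φ z ∂Λ)) := by
  have hint : ∀ (u f : Z → ℝ), Measurable u → (∀ z, |u z| ≤ 1) → Integrable f Λ →
      Integrable (fun z => u z * f z) Λ := by
    intro u f hu hu1 hf
    exact hf.bdd_mul hu.aestronglyMeasurable
      (Eventually.of_forall fun z => by rw [Real.norm_eq_abs]; exact hu1 z)
  refine Integrable.induction (P := fun Φ : Z → ℝ =>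
    Tendsto (fun j => ∫ z, G j z * Φ z ∂Λ) atTop (𝓝 (∫ z, G' z * Φ z ∂Λ))) ?_ ?_ ?_ ?_ hΦ
  · intro c s hs _
    have e : ∀ u : Z → ℝ, ∫ z, u z * s.indicator (fun _ => c) z ∂Λ = c * ∫ z in s, u z ∂Λ := by
      intro u
      rw [← integral_const_mul, ← integral_indicator hs]
      apply integral_congr_ae
      filter_upwards with z
      by_cases hz : z ∈ s
      · simp only [Set.indicator_of_mem hz]; ring
      · simp only [Set.indicator_of_notMem hz]; ring
    simp only [e]
    exact (h s hs).const_mul c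
  · intro f g _ hf hg h1 h2
    have e : ∀ u : Z → ℝ, Measurable u → (∀ z, |u z| ≤ 1) → ∫ z, u z * (f + g) z ∂Λ
        = ∫ z, u z * f z ∂Λ + ∫ z, u z * g z ∂Λ := by
      intro u hu hu1
      rw [← integral_add (hint u f hu hu1 hf) (hint u g hu hu1 hg)]
      apply integral_congr_ae
      filter_upwards with z
      simp only [Pi.add_apply]; ring
    simp only [e _ hG' hG'1, fun j => e _ (hG j) (hG1 j)]
    exact h1.add h2
  · refine isClosed_of_closure_subset fun f hf => ?_
    rw [Metric.mem_closure_iff] at hf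
    rw [Set.mem_ofPred_eq, Metric.tendsto_atTop]
    intro ε hε
    obtain ⟨g, hg, hfg⟩ := hf (ε / 3) (by positivity)
    obtain ⟨N, hN⟩ := Metric.tendsto_atTop.mp hg (ε / 3) (by positivity)
    refine ⟨N, fun j hj => ?_⟩
    have key : ∀ u : Z → ℝ, Measurable u → (∀ z, |u z| ≤ 1) →
        |∫ z, u z * f z ∂Λ - ∫ z, u z * g z ∂Λ| ≤ dist f g := by
      intro u hu hu1
      have hfi : Integrable f Λ := L1.integrable_coeFn f
      have hgi : Integrable g Λ := L1.integrable_coeFn g
      rw [← integral_sub (hint u f hu hu1 hfi) (hint u g hu hu1 hgi), dist_eq_norm,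
        L1.norm_eq_integral_norm]
      refine abs_integral_le_integral_abs.trans ?_
      apply integral_mono_ae
      · exact ((hint u f hu hu1 hfi).sub (hint u g hu hu1 hgi)).abs
      · exact (L1.integrable_coeFn (f - g)).norm
      · filter_upwards [Lp.coeFn_sub f g] with z hz
        rw [hz, Pi.sub_apply, Real.norm_eq_abs, ← mul_sub, abs_mul]
        have := abs_nonneg (f z - g z)
        have := hu1 z
        nlinarith
    have k1 := key _ (hG j) (hG1 j)
    have k2 := key _ hG' hG'1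
    have k3 := hN j hj
    rw [Real.dist_eq] at k3 ⊢
    have k4 := abs_sub_le (∫ z, G j z * f z ∂Λ) (∫ z, G j z * g z ∂Λ) (∫ z, G' z * f z ∂Λ)
    have k5 := abs_sub_le (∫ z, G j z * g z ∂Λ) (∫ z, G' z * g z ∂Λ) (∫ z, G' z * f z ∂Λ)
    rw [abs_sub_comm (∫ z, G' z * g z ∂Λ) (∫ z, G' z * f z ∂Λ)] at k5
    linarith
  · intro f g hfg _ h1
    have e : ∀ u : Z → ℝ, ∫ z, u z * f z ∂Λ = ∫ z, u z * g z ∂Λ := by
      intro u
      apply integral_congr_ae
      filter_upwards [hfg] with z hz
      rw [hz]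
    simp only [← e]
    exact h1

/-- weak convergence on a product space -/
lemma pi_lim {ι X : Type*} [Fintype ι] [MeasurableSpace X] (μ : Measure X)
    [IsProbabilityMeasure μ] {g : ℕ → ι → X → ℝ} {g' : ι → X → ℝ}
    (hg : ∀ j i, Measurable (g j i)) (hg1 : ∀ j i x, |g j i x| ≤ 1)
    (hg' : ∀ i, Measurable (g' i)) (hg'1 : ∀ i x, |g' i x| ≤ 1)
    (h : ∀ i H, MeasurableSet H →
      Tendsto (fun j => ∫ x in H, g j i x ∂μ) atTop (𝓝 (∫ x in H, g' i x ∂μ))) :
    ∀ H : Set (ι → X), MeasurableSet H →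
      Tendsto (fun j => ∫ x in H, ∏ i, g j i (x i) ∂(Measure.pi fun _ : ι => μ)) atTop
        (𝓝 (∫ x in H, ∏ i, g' i (x i) ∂(Measure.pi fun _ : ι => μ))) := by
  classical
  have hmP : ∀ u : ι → X → ℝ, (∀ i, Measurable (u i)) → Measurable fun x : ι → X => ∏ i, u i (x i) :=
    fun u hu => Finset.measurable_fun_prod _ fun i _ => (hu i).comp (measurable_pi_apply i)
  have hbP : ∀ u : ι → X → ℝ, (∀ i x, |u i x| ≤ 1) → ∀ x : ι → X, |∏ i, u i (x i)| ≤ 1 := by
    intro u hu x
    rw [Finset.abs_prod]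
    exact Finset.prod_le_one (fun i _ => abs_nonneg _) fun i _ => hu i _
  have hIP : ∀ u : ι → X → ℝ, (∀ i, Measurable (u i)) → (∀ i x, |u i x| ≤ 1) →
      Integrable (fun x : ι → X => ∏ i, u i (x i)) (Measure.pi fun _ : ι => μ) := fun u h1 h2 =>
    integrable_of_bdd (hmP u h1) (hbP u h2)
  have hrect : ∀ s : ι → Set X, (∀ i, MeasurableSet (s i)) →
      Tendsto (fun j => ∫ x in Set.pi Set.univ s, ∏ i, g j i (x i) ∂(Measure.pi fun _ : ι => μ))
        atTop (𝓝 (∫ x in Set.pi Set.univ s, ∏ i, g' i (x i) ∂(Measure.pi fun _ : ι => μ))) := by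
    intro s hs
    have e : ∀ u : ι → X → ℝ, ∫ x in Set.pi Set.univ s, ∏ i, u i (x i) ∂(Measure.pi fun _ : ι => μ)
        = ∏ i, ∫ x in s i, u i x ∂μ := by
      intro u
      rw [← integral_indicator (MeasurableSet.univ_pi hs)]
      have e2 : ∀ x : ι → X, (Set.pi Set.univ s).indicator (fun x => ∏ i, u i (x i)) x
          = ∏ i, (s i).indicator (u i) (x i) := by
        intro x
        by_cases hx : x ∈ Set.pi Set.univ s
        · rw [Set.indicator_of_mem hx]
          apply Finset.prod_congr rfl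
          intro i _
          rw [Set.indicator_of_mem (hx i (Set.mem_univ i))]
        · rw [Set.indicator_of_notMem hx]
          have : ∃ i, x i ∉ s i := by
            by_contra hcon
            push Not at hcon
            exact hx fun i _ => hcon i
          obtain ⟨i, hi⟩ := this
          exact (Finset.prod_eq_zero (Finset.mem_univ i) (Set.indicator_of_notMem hi _)).symm
      simp only [e2]
      rw [integral_fintype_prod_eq_prod (fun i => (s i).indicator (u i))]
      apply Finset.prod_congr rfl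
      intro i _
      rw [integral_indicator (hs i)]
    simp only [e]
    exact tendsto_finsetProd _ fun i _ => h i (s i) (hs i)
  intro H hH
  refine MeasurableSpace.induction_on_inter (C := fun H _ =>
    Tendsto (fun j => ∫ x in H, ∏ i, g j i (x i) ∂(Measure.pi fun _ : ι => μ)) atTop
        (𝓝 (∫ x in H, ∏ i, g' i (x i) ∂(Measure.pi fun _ : ι => μ)))) generateFrom_pi.symm
    isPiSystem_pi ?_ ?_ ?_ ?_ H hH
  · simp
  · rintro H ⟨s, hs, rfl⟩
    exact hrect s fun i => hs i (Set.mem_univ i)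
  · intro H hH ih
    have e : ∀ u : ι → X → ℝ, (∀ i, Measurable (u i)) → (∀ i x, |u i x| ≤ 1) →
        ∫ x in Hᶜ, ∏ i, u i (x i) ∂(Measure.pi fun _ : ι => μ)
          = ∫ x in Set.pi Set.univ (fun _ : ι => (Set.univ : Set X)),
              ∏ i, u i (x i) ∂(Measure.pi fun _ : ι => μ)
            - ∫ x in H, ∏ i, u i (x i) ∂(Measure.pi fun _ : ι => μ) := by
      intro u h1 h2
      rw [Set.pi_univ, setIntegral_univ, ← integral_add_compl hH (hIP u h1 h2)]
      ring
    simp only [e _ hg' hg'1, fun j => e _ (hg j) (hg1 j)]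
    exact (hrect _ fun _ => MeasurableSet.univ).sub ih
  · intro f hd hm ih
    have e : ∀ u : ι → X → ℝ, (∀ i, Measurable (u i)) → (∀ i x, |u i x| ≤ 1) →
        ∫ x in ⋃ i, f i, ∏ i, u i (x i) ∂(Measure.pi fun _ : ι => μ)
          = ∑' l, ∫ x in f l, ∏ i, u i (x i) ∂(Measure.pi fun _ : ι => μ) := by
      intro u h1 h2
      exact integral_iUnion hm hd (hIP u h1 h2).integrableOn
    simp only [e _ hg' hg'1, fun j => e _ (hg j) (hg1 j)]
    apply tendsto_tsum_of_dominated_convergence
      (bound := fun l => ((Measure.pi fun _ : ι => μ) (f l)).toReal)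
      (summable_measure_toReal hm hd) ih
    filter_upwards with j l
    calc ‖∫ x in f l, ∏ i, g j i (x i) ∂(Measure.pi fun _ : ι => μ)‖
        ≤ 1 * ((Measure.pi fun _ : ι => μ)).real (f l) := by
          apply norm_setIntegral_le_of_norm_le_const (measure_lt_top _ _)
          intro x _
          rw [Real.norm_eq_abs]
          exact hbP _ (hg1 j) x
      _ = _ := by rw [one_mul]; rfl

end density

end Pool.Agent.H52M
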