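import Pool.Agent.H52M.Partial

/-! Maps whose powers converge weakly, along a sequence, to a proper mixture of the identity and
the projection onto constants: self-joinings all of whose proper marginals are independent. -/

set_option linter.style.longLine false
set_option linter.unusedSectionVars false
set_option linter.style.header false

namespace Pool.Agent.H52M

open MeasureTheory Filter Topology

section main

variable {X : Type*} [MeasurableSpace X] {μ : Measure X} [IsProbabilityMeasure μ]

/-- centred indicator -/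
noncomputable def ci (μ : Measure X) (C : Set X) (x : X) : ℝ :=
  C.indicator (fun _ => (1 : ℝ)) x - μ.real C

lemma measurable_ci {C : Set X} (hC : MeasurableSet C) : Measurable (ci μ C) :=
  (measurable_const.indicator hC).sub_const _

lemma ci_le (C : Set X) (x : X) : |ci μ C x| ≤ 1 := by
  unfold ci
  have h1 : μ.real C ≤ 1 := measureReal_le_one
  have h2 : 0 ≤ μ.real C := measureReal_nonneg
  by_cases h : x ∈ C
  · rw [Set.indicator_of_mem h, abs_le]; constructor <;> linarith
  · rw [Set.indicator_of_notMem h, abs_le]; constructor <;> linarith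

lemma setIntegral_ci {C : Set X} (hC : MeasurableSet C) {S : X → X} (hS : MeasurePreserving S μ μ)
    {H : Set X} : ∫ x in H, ci μ C (S x) ∂μ = μ.real (H ∩ S ⁻¹' C) - μ.real C * μ.real H := by
  unfold ci
  have e : ∀ x, C.indicator (fun _ => (1 : ℝ)) (S x) = (S ⁻¹' C).indicator (fun _ => (1 : ℝ)) x :=
    fun x => rfl
  simp only [e]
  have hSC : MeasurableSet (S ⁻¹' C) := hS.measurable hC
  rw [integral_sub ((integrable_const (1 : ℝ)).indicator hSC) (integrable_const _),
    integral_indicator hSC, Measure.restrict_restrict hSC, setIntegral_const, setIntegral_const,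
    smul_eq_mul, smul_eq_mul, mul_one, Set.inter_comm, mul_comm]

lemma ci_lim {T : X → X} (hT : MeasurePreserving T μ μ) {k : ℕ → ℕ} {a : ℝ}
    (hlim : ∀ A B, MeasurableSet A → MeasurableSet B →
      Tendsto (fun j => μ.real (A ∩ T^[k j] ⁻¹' B)) atTop
        (𝓝 (a * μ.real (A ∩ B) + (1 - a) * (μ.real A * μ.real B))))
    {C : Set X} (hC : MeasurableSet C) (H : Set X) (hH : MeasurableSet H) :
    Tendsto (fun j => ∫ x in H, ci μ C (T^[k j] x) ∂μ) atTop
      (𝓝 (∫ x in H, a * ci μ C x ∂μ)) := by
  have e1 : ∫ x in H, a * ci μ C x ∂μ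
      = a * μ.real (H ∩ C) + (1 - a) * (μ.real H * μ.real C) - μ.real C * μ.real H := by
    rw [integral_const_mul]
    have := setIntegral_ci (μ := μ) hC (S := id) (MeasurePreserving.id μ) (H := H)
    simp only [id, Set.preimage_id] at this
    rw [this]
    ring
  rw [e1]
  simp only [setIntegral_ci hC (hT.iterate _)]
  exact (hlim H C hH hC).sub_const _

lemma lim_symm {T : X ≃ᵐ X} (hT : MeasurePreserving T μ μ) {k : ℕ → ℕ} {a : ℝ}
    (hlim : ∀ A B, MeasurableSet A → MeasurableSet B →
      Tendsto (fun j => μ.real (A ∩ T^[k j] ⁻¹' B)) atTop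
        (𝓝 (a * μ.real (A ∩ B) + (1 - a) * (μ.real A * μ.real B)))) :
    ∀ A B, MeasurableSet A → MeasurableSet B →
      Tendsto (fun j => μ.real (A ∩ T.symm^[k j] ⁻¹' B)) atTop
        (𝓝 (a * μ.real (A ∩ B) + (1 - a) * (μ.real A * μ.real B))) := by
  intro A B hA hB
  have h1 := hlim B A hB hA
  have e1 : ∀ l, μ.real (A ∩ T.symm^[l] ⁻¹' B) = μ.real (B ∩ T^[l] ⁻¹' A) := by
    intro l
    have hm : MeasurableSet (A ∩ T.symm^[l] ⁻¹' B) := hA.inter ((T.symm.measurable.iterate l) hB)
    have e2 : T^[l] ⁻¹' (A ∩ T.symm^[l] ⁻¹' B) = B ∩ T^[l] ⁻¹' A := by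
      ext x
      have : T.symm^[l] (T^[l] x) = x :=
        (Function.LeftInverse.iterate T.symm_apply_apply l) x
      simp only [Set.mem_preimage, Set.mem_inter_iff, this]
      tauto
    rw [← e2, measureReal_def, measureReal_def, (hT.iterate l).measure_preimage hm.nullMeasurableSet]
  simp only [e1]
  rw [Set.inter_comm A B, mul_comm (μ.real A)]
  exact h1

lemma kappa_zero {n : ℕ} (hn : 3 ≤ n) (T : X ≃ᵐ X) (hT : MeasurePreserving T μ μ)
    {k : ℕ → ℕ} {a : ℝ} (ha0 : 0 < a) (ha1 : a < 1)
    (hlim : ∀ A B, MeasurableSet A → MeasurableSet B →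
      Tendsto (fun j => μ.real (A ∩ T^[k j] ⁻¹' B)) atTop
        (𝓝 (a * μ.real (A ∩ B) + (1 - a) * (μ.real A * μ.real B))))
    {ν : Measure (Fin n → X)} [IsProbabilityMeasure ν]
    (hν : MeasurePreserving (fun x j => T (x j)) ν ν)
    (hmarg : ∀ K : Fin n, ν.map (fun x (j : {j : Fin n // j ≠ K}) => x j) = Measure.pi fun _ => μ)
    (C : Fin n → Set X) (hC : ∀ i, MeasurableSet (C i)) :
    ∫ x, ∏ i, ci μ (C i) (x i) ∂ν = 0 := by
  classical
  let K : Fin n := ⟨0, by omega⟩
  let K' : Fin n := ⟨1, by omega⟩
  have hKK : K ≠ K' := by simp [K, K']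
  let Λ : Measure ({j : Fin n // j ≠ K} → X) := Measure.pi fun _ => μ
  let z : (Fin n → X) → ({j : Fin n // j ≠ K} → X) := fun x j => x j
  have hz : Measurable z := measurable_pi_lambda _ fun j => measurable_pi_apply j.1
  have hzlaw : ν.map z = Λ := hmarg K
  have hKlaw : ν.map (fun x => x K) = μ := by
    have h2 : (fun (x : Fin n → X) => x K)
        = (fun y : ({j : Fin n // j ≠ K'} → X) => y ⟨K, hKK⟩)
          ∘ (fun x (j : {j : Fin n // j ≠ K'}) => x j) := rfl
    rw [h2, ← Measure.map_map (measurable_pi_apply _)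
      (measurable_pi_lambda _ fun j => measurable_pi_apply j.1), hmarg K']
    exact (measurePreserving_eval (fun _ : {j : Fin n // j ≠ K'} => μ) ⟨K, hKK⟩).map_eq
  -- the functions
  let F : ℕ → ({j : Fin n // j ≠ K} → X) → ℝ := fun l u =>
    ∏ i : {j : Fin n // j ≠ K}, ci μ (C i) (T^[l] (u i))
  have hTl : ∀ l, Measurable T^[l] := fun l => hT.measurable.iterate l
  have hF : ∀ l, Measurable (F l) := fun l => Finset.measurable_fun_prod _ fun i _ =>
    ((measurable_ci (hC i)).comp (hTl l)).comp (measurable_pi_apply i)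
  have hF1 : ∀ l u, |F l u| ≤ 1 := by
    intro l u
    simp only [F, Finset.abs_prod]
    exact Finset.prod_le_one (fun i _ => abs_nonneg _) fun i _ => ci_le _ _
  have hK : Measurable fun x : Fin n → X => ci μ (C K) (x K) :=
    (measurable_ci (hC K)).comp (measurable_pi_apply K)
  obtain ⟨κ, hκ⟩ : ∃ κ, κ = ∫ x, F 0 (z x) * ci μ (C K) (x K) ∂ν := ⟨_, rfl⟩
  have hgoal : ∫ x, ∏ i, ci μ (C i) (x i) ∂ν = κ := by
    rw [hκ]
    apply integral_congr_ae
    filter_upwards with x
    rw [Fintype.prod_eq_mul_prod_subtype_ne _ K, mul_comm]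
    rfl
  -- first limit
  have hlim1 : Tendsto (fun j => ∫ x, F (k j) (z x) * ci μ (C K) (x K) ∂ν) atTop
      (𝓝 (a ^ (n - 1) * κ)) := by
    obtain ⟨Φ, hΦm, hΦ1, hΦ⟩ := exists_cond ν Λ hz hzlaw hK (fun x => ci_le _ _)
    have h1 := pi_lim (ι := {j : Fin n // j ≠ K}) μ
      (g := fun j i x => ci μ (C i) (T^[k j] x)) (g' := fun i x => a * ci μ (C i) x)
      (fun j i => (measurable_ci (hC i)).comp (hTl _)) (fun j i x => ci_le _ _)
      (fun i => (measurable_ci (hC i)).const_mul a)
      (fun i x => by
        rw [abs_mul, abs_of_pos ha0]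
        have := ci_le (μ := μ) (C i) x
        have := abs_nonneg (ci μ (C i) x)
        nlinarith)
      (fun i H hH => ci_lim hT hlim (hC i) H hH)
    have hF' : ∀ u : {j : Fin n // j ≠ K} → X,
        ∏ i : {j : Fin n // j ≠ K}, a * ci μ (C i) (u i) = a ^ (n - 1) * F 0 u := by
      intro u
      rw [Finset.prod_mul_distrib, Finset.prod_const, Finset.card_univ]
      congr 2
      simp
    have h2 := weak_ext Λ (G := fun j => F (k j)) (G' := fun u =>
        ∏ i : {j : Fin n // j ≠ K}, a * ci μ (C i) (u i))
      (fun j => hF _) (fun j u => hF1 _ u)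
      (Finset.measurable_fun_prod _ fun i _ =>
        ((measurable_ci (hC i)).comp (measurable_pi_apply i)).const_mul a)
      (fun u => by
        rw [hF', abs_mul, abs_of_nonneg (pow_nonneg ha0.le _)]
        have h3 := hF1 0 u
        have h4 : a ^ (n - 1) ≤ 1 := pow_le_one₀ ha0.le ha1.le
        have h5 := abs_nonneg (F 0 u)
        have h6 : 0 ≤ a ^ (n - 1) := pow_nonneg ha0.le _
        nlinarith)
      h1 (Φ := Φ) (integrable_of_bdd hΦm hΦ1)
    simp only [hF', mul_assoc] at h2
    rw [integral_const_mul, ← hΦ (F 0) (hF 0) (hF1 0), ← hκ] at h2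
    simpa only [hΦ (F _) (hF _) (hF1 _)] using h2
  -- second limit
  have hlim2 : Tendsto (fun j => ∫ x, F (k j) (z x) * ci μ (C K) (x K) ∂ν) atTop
      (𝓝 (a * κ)) := by
    obtain ⟨Ψ, hΨm, hΨ1, hΨ⟩ := exists_cond ν μ (measurable_pi_apply K) hKlaw
      (u := fun x => F 0 (z x)) ((hF 0).comp hz) (fun x => hF1 0 _)
    have hTs : MeasurePreserving T.symm μ μ := hT.symm
    have h1 : ∀ H, MeasurableSet H →
        Tendsto (fun j => ∫ x in H, ci μ (C K) (T.symm^[k j] x) ∂μ) atTop
          (𝓝 (∫ x in H, a * ci μ (C K) x ∂μ)) := fun H hH =>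
      ci_lim hTs (lim_symm hT hlim) (hC K) H hH
    have h2 := weak_ext μ (G := fun j x => ci μ (C K) (T.symm^[k j] x))
      (G' := fun x => a * ci μ (C K) x)
      (fun j => (measurable_ci (hC K)).comp (hTs.measurable.iterate _)) (fun j x => ci_le _ _)
      ((measurable_ci (hC K)).const_mul a)
      (fun x => by
        rw [abs_mul, abs_of_pos ha0]
        have := ci_le (μ := μ) (C K) x
        have := abs_nonneg (ci μ (C K) x)
        nlinarith)
      h1 (Φ := Ψ) (integrable_of_bdd hΨm hΨ1)
    have e1 : ∫ x, a * ci μ (C K) x * Ψ x ∂μ = a * κ := by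
      simp only [mul_assoc]
      rw [integral_const_mul, ← hΨ _ (measurable_ci (hC K)) (fun x => ci_le _ _), hκ]
      congr 2
      funext x
      ring
    have e2 : ∀ l, ∫ x, ci μ (C K) (T.symm^[l] x) * Ψ x ∂μ
        = ∫ x, F l (z x) * ci μ (C K) (x K) ∂ν := by
      intro l
      have hms : Measurable fun x => ci μ (C K) (T.symm^[l] x) :=
        (measurable_ci (hC K)).comp (hTs.measurable.iterate _)
      rw [← hΨ _ hms (fun x => ci_le _ _)]
      rw [← integral_iter hν (u := fun x => ci μ (C K) (T.symm^[l] (x K)) * F 0 (z x))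
        ((hms.comp (measurable_pi_apply K)).mul ((hF 0).comp hz)) l]
      apply integral_congr_ae
      filter_upwards with x
      have e3 : ∀ i, ((fun (x : Fin n → X) j => T (x j))^[l] x) i = T^[l] (x i) := by
        intro i
        clear hms
        induction l generalizing x with
        | zero => rfl
        | succ l ih => rw [Function.iterate_succ_apply, Function.iterate_succ_apply]; exact ih _
      have e4 : T.symm^[l] (T^[l] (x K)) = x K :=
        (Function.LeftInverse.iterate T.symm_apply_apply l) _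
      have e5 : F 0 (z ((fun (x : Fin n → X) j => T (x j))^[l] x)) = F l (z x) := by
        simp only [F, z, e3, Function.iterate_zero, id]
      simp only [e3, e4, e5]
      ring
    rw [e1] at h2
    simpa only [e2] using h2
  have hunique : a ^ (n - 1) * κ = a * κ := tendsto_nhds_unique hlim1 hlim2
  have hpow : a ^ (n - 1) < a := by
    calc a ^ (n - 1) ≤ a ^ 2 := pow_le_pow_of_le_one ha0.le ha1.le (by omega)
      _ < a := by nlinarith
  rw [hgoal]
  have h3 : (a - a ^ (n - 1)) * κ = 0 := by linarith
  rcases mul_eq_zero.mp h3 with h | h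
  · linarith
  · exact h

/-- measures with the same proper marginals and the same centred correlations agree -/
lemma eq_of_centred {n : ℕ} {ν ν' : Measure (Fin n → X)} [IsProbabilityMeasure ν]
    [IsProbabilityMeasure ν']
    (hm : ∀ K : Fin n, ν.map (fun x (j : {j : Fin n // j ≠ K}) => x j)
      = ν'.map (fun x (j : {j : Fin n // j ≠ K}) => x j))
    (hc : ∀ C : Fin n → Set X, (∀ i, MeasurableSet (C i)) →
      ∫ x, ∏ i, ci μ (C i) (x i) ∂ν = ∫ x, ∏ i, ci μ (C i) (x i) ∂ν')
    (C : Fin n → Set X) (hC : ∀ i, MeasurableSet (C i)) :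
    ν.real (Set.pi Set.univ C) = ν'.real (Set.pi Set.univ C) := by
  classical
  let h : Finset (Fin n) → Fin n → X → ℝ := fun M i x =>
    ci μ (C i) x + if i ∈ M then μ.real (C i) else 0
  have hh : ∀ M i, Measurable (h M i) := fun M i => (measurable_ci (hC i)).add_const _
  have hh1 : ∀ M i x, |h M i x| ≤ 1 := by
    intro M i x
    simp only [h]
    split_ifs
    · unfold ci
      rw [sub_add_cancel]
      by_cases hx : x ∈ C i
      · simp [hx]
      · simp [hx]
    · rw [add_zero]; exact ci_le _ _
  have key : ∀ M : Finset (Fin n), ∫ x, ∏ i, h M i (x i) ∂ν = ∫ x, ∏ i, h M i (x i) ∂ν' := by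
    intro M
    induction M using Finset.induction_on with
    | empty =>
      have := hc C hC
      simpa [h] using this
    | insert j M hj ih =>
      let Hj : ({i : Fin n // i ≠ j} → X) → ℝ := fun u =>
        ∏ i : {i : Fin n // i ≠ j}, h M i (u i)
      have hHj : Measurable Hj := Finset.measurable_fun_prod _ fun i _ =>
        (hh M i).comp (measurable_pi_apply i)
      have hHj1 : ∀ u, |Hj u| ≤ 1 := by
        intro u
        simp only [Hj, Finset.abs_prod]
        exact Finset.prod_le_one (fun i _ => abs_nonneg _) fun i _ => hh1 _ _ _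
      have hres : Measurable fun (x : Fin n → X) (i : {i : Fin n // i ≠ j}) => x i :=
        measurable_pi_lambda _ fun i => measurable_pi_apply i.1
      have hsplit : ∀ x : Fin n → X, ∏ i, h (insert j M) i (x i)
          = ∏ i, h M i (x i) + μ.real (C j) * Hj (fun i => x i) := by
        intro x
        rw [Fintype.prod_eq_mul_prod_subtype_ne _ j, Fintype.prod_eq_mul_prod_subtype_ne
          (fun i => h M i (x i)) j]
        have e1 : ∏ i : {i : Fin n // i ≠ j}, h (insert j M) i (x i) = Hj (fun i => x i) := by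
          simp only [Hj]
          apply Finset.prod_congr rfl
          intro i _
          simp only [h, Finset.mem_insert, i.2, false_or]
        have e2 : h (insert j M) j (x j) = h M j (x j) + μ.real (C j) := by
          simp only [h, Finset.mem_insert_self, if_true, hj, if_false]
          ring
        rw [e1, e2]
        simp only [Hj]
        ring
      have hint : ∀ (ρ : Measure (Fin n → X)) [IsProbabilityMeasure ρ],
          ∫ x, ∏ i, h (insert j M) i (x i) ∂ρ
            = ∫ x, ∏ i, h M i (x i) ∂ρ + μ.real (C j) * ∫ u, Hj u ∂(ρ.map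
              (fun x (i : {i : Fin n // i ≠ j}) => x i)) := by
        intro ρ _
        simp only [hsplit]
        rw [integral_add, integral_const_mul, integral_map hres.aemeasurable
          hHj.aestronglyMeasurable]
        · apply integrable_of_bdd (C := 1)
          · exact Finset.measurable_fun_prod _ fun i _ => (hh M i).comp (measurable_pi_apply i)
          · intro x
            rw [Finset.abs_prod]
            exact Finset.prod_le_one (fun i _ => abs_nonneg _) fun i _ => hh1 _ _ _
        · apply Integrable.const_mul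
          exact integrable_of_bdd (C := 1) (hHj.comp hres) fun x => hHj1 _
      rw [hint ν, hint ν', ih, hm j]
  have hu := key Finset.univ
  have e : ∀ x : Fin n → X, ∏ i, h Finset.univ i (x i)
      = (Set.pi Set.univ C).indicator (fun _ => (1 : ℝ)) x := by
    intro x
    simp only [h, Finset.mem_univ, if_true, ci, sub_add_cancel]
    by_cases hx : x ∈ Set.pi Set.univ C
    · rw [Set.indicator_of_mem hx]
      apply Finset.prod_eq_one
      intro i _
      rw [Set.indicator_of_mem (hx i (Set.mem_univ i))]
    · rw [Set.indicator_of_notMem hx]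
      have : ∃ i, x i ∉ C i := by
        by_contra hcon
        push Not at hcon
        exact hx fun i _ => hcon i
      obtain ⟨i, hi⟩ := this
      exact Finset.prod_eq_zero (Finset.mem_univ i) (Set.indicator_of_notMem hi _)
  have hmC : MeasurableSet (Set.pi Set.univ C) := MeasurableSet.univ_pi hC
  have e2 : ∀ (ρ : Measure (Fin n → X)) [IsProbabilityMeasure ρ],
      ∫ x, ∏ i, h Finset.univ i (x i) ∂ρ = ρ.real (Set.pi Set.univ C) := by
    intro ρ _
    simp only [e]
    rw [integral_indicator_const _ hmC, smul_eq_mul, mul_one]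
  rw [← e2 ν, ← e2 ν']
  exact hu

/-- A map whose powers converge weakly along a sequence to `a I + (1 - a) Π`, `0 < a < 1`, has
property `S_n` for every `n ≥ 3`. -/
theorem propS_of_partial {n : ℕ} (hn : 3 ≤ n) (T : X ≃ᵐ X) (hT : MeasurePreserving T μ μ)
    {k : ℕ → ℕ} {a : ℝ} (ha0 : 0 < a) (ha1 : a < 1)
    (hlim : ∀ A B, MeasurableSet A → MeasurableSet B →
      Tendsto (fun j => μ.real (A ∩ T^[k j] ⁻¹' B)) atTop
        (𝓝 (a * μ.real (A ∩ B) + (1 - a) * (μ.real A * μ.real B))))
    (ν : Measure (Fin n → X)) [IsProbabilityMeasure ν]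
    (hν : MeasurePreserving (fun x j => T (x j)) ν ν)
    (hmarg : ∀ K : Fin n, ν.map (fun x (j : {j : Fin n // j ≠ K}) => x j) = Measure.pi fun _ => μ) :
    ν = Measure.pi fun _ => μ := by
  classical
  have hTn : MeasurePreserving (fun (x : Fin n → X) j => T (x j))
      (Measure.pi fun _ => μ) (Measure.pi fun _ => μ) :=
    measurePreserving_pi _ _ fun _ => hT
  have hmargPi : ∀ K : Fin n, (Measure.pi fun _ : Fin n => μ).map
      (fun x (j : {j : Fin n // j ≠ K}) => x j) = Measure.pi fun _ => μ := by
    intro K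
    have h := measurePreserving_piEquivPiSubtypeProd (fun _ : Fin n => μ) (fun j => j ≠ K)
    have h2 : (fun (x : Fin n → X) (j : {j : Fin n // j ≠ K}) => x j)
        = Prod.fst ∘ (MeasurableEquiv.piEquivPiSubtypeProd (fun _ : Fin n => X)
          (fun j => j ≠ K)) := by
      funext x j
      rfl
    rw [h2, ← Measure.map_map measurable_fst (MeasurableEquiv.measurable _), h.map_eq,
      Measure.map_fst_prod, measure_univ, one_smul]
  have h1 := kappa_zero hn T hT ha0 ha1 hlim hν hmarg
  have h2 := kappa_zero hn T hT ha0 ha1 hlim hTn hmargPi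
  symm
  apply Measure.pi_eq
  intro C hC
  have h3 := eq_of_centred (μ := μ) (ν := ν) (ν' := Measure.pi fun _ => μ)
    (fun K => by rw [hmarg K, hmargPi K]) (fun C hC => by rw [h1 C hC, h2 C hC]) C hC
  have h4 : ν (Set.pi Set.univ C) = (Measure.pi fun _ : Fin n => μ) (Set.pi Set.univ C) := by
    rw [← ENNReal.toReal_eq_toReal_iff' (measure_ne_top _ _) (measure_ne_top _ _)]
    exact h3
  rw [h4, Measure.pi_pi]

end main

end Pool.Agent.H52M
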