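import Pool.Agent.H52M.GT

/-! Powers of maps without rigid functions; laws of coordinates of product measures. -/

set_option linter.style.longLine false
set_option linter.unusedSectionVars false
set_option linter.style.header false

namespace Pool.Agent.H52M

open MeasureTheory Filter Topology

section pi

variable {X : Type*} [MeasurableSpace X] {μ : Measure X} [IsProbabilityMeasure μ]

/-- powers of a map without rigid functions have no rigid functions -/
theorem RF.pi [StandardBorelSpace X] {T : X → X} (hT : MeasurePreserving T μ μ) (h : RF μ T)
    (n : ℕ) : RF (Measure.pi fun _ : Fin n => μ) (fun x j => T (x j)) := by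
  induction n with
  | zero =>
    intro g _ _ _
    refine ⟨g (fun i => i.elim0), Eventually.of_forall fun y => ?_⟩
    congr 1
    funext i
    exact i.elim0
  | succ n ih =>
    let e : (Fin (n + 1) → X) ≃ᵐ X × (Fin n → X) := MeasurableEquiv.piFinSuccAbove (fun _ => X) 0
    have he : MeasurePreserving e (Measure.pi fun _ : Fin (n + 1) => μ)
        (μ.prod (Measure.pi fun _ : Fin n => μ)) :=
      measurePreserving_piFinSuccAbove (fun _ => μ) 0
    have hTn : MeasurePreserving (fun (x : Fin n → X) j => T (x j))
        (Measure.pi fun _ => μ) (Measure.pi fun _ => μ) :=
      measurePreserving_pi _ _ fun _ => hT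
    have h2 : RF (μ.prod (Measure.pi fun _ : Fin n => μ))
        (Prod.map T (fun (x : Fin n → X) j => T (x j))) := RF.prod hT hTn h ih
    refine RF.factor h2 he.symm ?_ ?_
    · rintro ⟨a, f⟩
      funext j
      refine Fin.cases ?_ (fun i => ?_) j
      · simp [e, MeasurableEquiv.piFinSuccAbove, Fin.insertNthEquiv]
      · simp [e, MeasurableEquiv.piFinSuccAbove, Fin.insertNthEquiv]
    · exact measurable_pi_lambda _ fun j => hT.measurable.comp (measurable_pi_apply j)

variable {n : ℕ}

lemma measurable_upd (K : Fin n) :
    Measurable (fun p : X × (Fin n → X) => Function.update p.2 K p.1) := by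
  apply measurable_pi_lambda
  intro j
  by_cases h : j = K
  · subst h
    simp only [Function.update_self]
    exact measurable_fst
  · simp only [Function.update_of_ne h]
    exact (measurable_pi_apply j).comp measurable_snd

/-- resampling one coordinate -/
lemma resample (K : Fin n) : (μ.prod (Measure.pi fun _ : Fin n => μ)).map
    (fun p => Function.update p.2 K p.1) = Measure.pi fun _ => μ := by
  classical
  symm
  apply Measure.pi_eq
  intro s hs
  rw [Measure.map_apply (measurable_upd K) (MeasurableSet.univ_pi hs)]
  have : (fun p : X × (Fin n → X) => Function.update p.2 K p.1) ⁻¹' (Set.pi Set.univ s)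
      = s K ×ˢ (Set.pi Set.univ (Function.update s K Set.univ)) := by
    ext p
    simp only [Set.mem_preimage, Set.mem_pi, Set.mem_univ, true_implies, Set.mem_prod]
    constructor
    · intro h
      refine ⟨by simpa using h K, fun i => ?_⟩
      by_cases hi : i = K
      · subst hi; simp
      · have := h i
        rw [Function.update_of_ne hi] at this
        rw [Function.update_of_ne hi]
        exact this
    · rintro ⟨h1, h2⟩ i
      by_cases hi : i = K
      · subst hi; simpa using h1
      · have := h2 i
        rw [Function.update_of_ne hi] at this
        rw [Function.update_of_ne hi]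
        exact this
  rw [this, Measure.prod_prod, Measure.pi_pi, ← Finset.mul_prod_erase Finset.univ
    (fun i => μ (s i)) (Finset.mem_univ K), ← Finset.mul_prod_erase Finset.univ
    (fun i => μ (Function.update s K Set.univ i)) (Finset.mem_univ K), Function.update_self,
    measure_univ, one_mul]
  congr 1
  apply Finset.prod_congr rfl
  intro i hi
  rw [Function.update_of_ne (Finset.mem_erase.mp hi).1]

/-- a coordinate is independent of a function of the other ones -/
lemma law_pair {Y : Type*} [MeasurableSpace Y] (K : Fin n) {g : (Fin n → X) → Y}
    (hg : Measurable g) (hgK : ∀ x a, g (Function.update x K a) = g x) :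
    (Measure.pi fun _ : Fin n => μ).map (fun x => (x K, g x))
      = μ.prod ((Measure.pi fun _ : Fin n => μ).map g) := by
  have hm : Measurable fun x : Fin n → X => (x K, g x) := (measurable_pi_apply K).prodMk hg
  have e : (fun x : Fin n → X => (x K, g x)) ∘ (fun p : X × (Fin n → X) =>
      Function.update p.2 K p.1) = Prod.map id g := by
    funext p
    simp only [Function.comp_apply, Function.update_self, hgK]
    rfl
  conv_lhs => rw [← resample (μ := μ) K, Measure.map_map hm (measurable_upd K), e]
  rw [← Measure.map_prod_map μ (Measure.pi fun _ : Fin n => μ) measurable_id hg, Measure.map_id]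

end pi

end Pool.Agent.H52M
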