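import Mathlib

/-! Measure preserving maps without nonconstant rigid functions: factors, separability,
quantitative recurrence, products. -/

set_option linter.style.longLine false
set_option linter.unusedSectionVars false
set_option linter.style.header false

namespace Pool.Agent.H52M

open MeasureTheory Filter Topology

/-- The map `R` has no nonconstant rigid function: a measurable function `h` with values in
`[-1, 1]` for which `h ∘ R^k` comes arbitrarily close to `h` in `L¹` for arbitrarily large `k` is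
almost everywhere constant. -/
def RF {Y : Type*} [MeasurableSpace Y] (μ : Measure Y) (R : Y → Y) : Prop :=
  ∀ h : Y → ℝ, Measurable h → (∀ y, |h y| ≤ 1) →
    (∀ δ > 0, ∃ᶠ k in atTop, ∫ y, |h (R^[k] y) - h y| ∂μ < δ) → ∃ c : ℝ, ∀ᵐ y ∂μ, h y = c

lemma integrable_of_bdd {Ω : Type*} [MeasurableSpace Ω] {P : Measure Ω} [IsFiniteMeasure P]
    {f : Ω → ℝ} (hf : Measurable f) {C : ℝ} (h : ∀ ω, |f ω| ≤ C) : Integrable f P :=
  Integrable.of_bound hf.aestronglyMeasurable C (Eventually.of_forall fun ω => by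
    rw [Real.norm_eq_abs]; exact h ω)

lemma integral_iter {Y : Type*} [MeasurableSpace Y] {μ : Measure Y} {R : Y → Y}
    (hR : MeasurePreserving R μ μ) {u : Y → ℝ} (hu : Measurable u) (k : ℕ) :
    ∫ y, u (R^[k] y) ∂μ = ∫ y, u y ∂μ := by
  conv_rhs => rw [← (hR.iterate k).map_eq]
  rw [integral_map (hR.iterate k).measurable.aemeasurable hu.aestronglyMeasurable]

section factor

variable {Y Z : Type*} [MeasurableSpace Y] [MeasurableSpace Z]

lemma RF.factor {μ : Measure Y} {R : Y → Y} {ρ : Measure Z} {R' : Z → Z} {p : Y → Z}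
    (h : RF μ R) (hp : MeasurePreserving p μ ρ) (hc : ∀ y, p (R y) = R' (p y))
    (hR' : Measurable R') : RF ρ R' := by
  intro g hg hg1 hrig
  have hck : ∀ k y, p (R^[k] y) = R'^[k] (p y) := by
    intro k
    induction k with
    | zero => intro y; rfl
    | succ k ih => intro y; rw [Function.iterate_succ_apply, Function.iterate_succ_apply, ih, hc]
  obtain ⟨c, hcc⟩ := h (fun y => g (p y)) (hg.comp hp.measurable) (fun y => hg1 _) (by
    intro δ hδ
    refine (hrig δ hδ).mono fun k hk => ?_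
    have hm : Measurable fun z => |g (R'^[k] z) - g z| :=
      ((hg.comp (hR'.iterate k)).sub hg).abs
    rw [← hp.map_eq, integral_map hp.measurable.aemeasurable hm.aestronglyMeasurable] at hk
    simpa only [hck] using hk)
  refine ⟨c, ?_⟩
  have hset : MeasurableSet {z | g z = c} := hg (measurableSet_singleton c)
  rw [← hp.map_eq, ae_map_iff hp.measurable.aemeasurable hset]
  exact hcc

end factor

section sep

variable {Y : Type*} [MeasurableSpace Y] [MeasurableSpace.CountablyGenerated Y]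

lemma exists_seq (μ : Measure Y) [IsProbabilityMeasure μ] : ∃ g : ℕ → Y → ℝ,
    (∀ i, Measurable (g i)) ∧ (∀ i, Integrable (g i) μ) ∧
    ∀ h : Y → ℝ, Measurable h → (∀ y, |h y| ≤ 1) → ∀ δ > 0, ∃ i, ∫ y, |h y - g i y| ∂μ < δ := by
  have : Fact ((1 : ENNReal) ≠ ⊤) := ⟨ENNReal.one_ne_top⟩
  let u : ℕ → Lp ℝ 1 μ := TopologicalSpace.denseSeq (Lp ℝ 1 μ)
  refine ⟨fun i => u i, fun i => (Lp.stronglyMeasurable (u i)).measurable,
    fun i => L1.integrable_coeFn (u i), ?_⟩
  intro h hh h1 δ hδ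
  have hI : Integrable h μ := integrable_of_bdd hh h1
  obtain ⟨i, hi⟩ := (TopologicalSpace.denseRange_denseSeq (Lp ℝ 1 μ)).exists_dist_lt
    (hI.toL1 h) hδ
  refine ⟨i, ?_⟩
  rw [dist_eq_norm, L1.norm_eq_integral_norm] at hi
  refine lt_of_le_of_lt (le_of_eq ?_) hi
  apply integral_congr_ae
  filter_upwards [Lp.coeFn_sub (hI.toL1 h) (TopologicalSpace.denseSeq (Lp ℝ 1 μ) i),
    hI.coeFn_toL1] with y h2 h3
  rw [h2, Pi.sub_apply, h3, Real.norm_eq_abs]

end sep

section rec

variable {Y : Type*} [MeasurableSpace Y]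

lemma quant_rec {μ : Measure Y} [IsProbabilityMeasure μ] {U : Y → Y} (hU : MeasurePreserving U μ μ)
    {A : Set Y} (hA : MeasurableSet A) {K : ℕ} (hK : 2 < K * μ.real A) :
    ∃ j, 1 ≤ j ∧ j ≤ K ∧ 1 / (K : ℝ) ^ 2 ≤ μ.real (A ∩ U^[j] ⁻¹' A) := by
  classical
  by_contra hcon
  push Not at hcon
  have hK0 : (0 : ℝ) < K := by
    rcases Nat.eq_zero_or_pos K with h | h
    · rw [h] at hK; simp at hK; linarith
    · exact_mod_cast h
  have hmU : ∀ i, Measurable U^[i] := fun i => hU.measurable.iterate i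
  let B : ℕ → Set Y := fun i => U^[i] ⁻¹' A
  have hB : ∀ i, MeasurableSet (B i) := fun i => hmU i hA
  have hBm : ∀ i, μ.real (B i) = μ.real A := fun i => by
    rw [measureReal_def, measureReal_def, (hU.iterate i).measure_preimage hA.nullMeasurableSet]
  have hpair : ∀ i l, i < K → l < K → i ≠ l → μ.real (B i ∩ B l) < 1 / (K : ℝ) ^ 2 := by
    have key : ∀ i l, l < K → i < l → μ.real (B i ∩ B l) < 1 / (K : ℝ) ^ 2 := by
      intro i l hl hil
      have e : B i ∩ B l = U^[i] ⁻¹' (A ∩ U^[l - i] ⁻¹' A) := by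
        ext y
        simp only [B, Set.mem_inter_iff, Set.mem_preimage]
        rw [← Function.iterate_add_apply, Nat.sub_add_cancel hil.le]
      rw [e, measureReal_def, (hU.iterate i).measure_preimage
        (hA.inter (hmU _ hA)).nullMeasurableSet]
      exact hcon (l - i) (by omega) (by omega)
    intro i l hi hl hil
    rcases lt_or_gt_of_ne hil with h | h
    · exact key i l hl h
    · rw [Set.inter_comm]; exact key l i hi h
  -- pointwise inequality
  have hpt : ∀ y, 2 * (∑ i ∈ Finset.range K, (B i).indicator (fun _ => (1 : ℝ)) y - 1)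
      ≤ ∑ i ∈ Finset.range K, ∑ l ∈ Finset.range K,
        if i = l then 0 else (B i ∩ B l).indicator (fun _ => (1 : ℝ)) y := by
    intro y
    let N : ℕ := ((Finset.range K).filter fun i => y ∈ B i).card
    have e1 : ∑ i ∈ Finset.range K, (B i).indicator (fun _ => (1 : ℝ)) y = N := by
      simp only [Set.indicator_apply, N]
      rw [Finset.card_filter]
      push_cast
      rfl
    have e2 : ∑ i ∈ Finset.range K, ∑ l ∈ Finset.range K,
        (if i = l then 0 else (B i ∩ B l).indicator (fun _ => (1 : ℝ)) y) = N * N - N := by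
      have e3 : ∀ i l, (if i = l then 0 else (B i ∩ B l).indicator (fun _ => (1 : ℝ)) y)
          = (B i).indicator (fun _ => (1 : ℝ)) y * (B l).indicator (fun _ => (1 : ℝ)) y
            - if i = l then (B i).indicator (fun _ => (1 : ℝ)) y else 0 := by
        intro i l
        by_cases hil : i = l
        · subst hil
          by_cases h : y ∈ B i <;> simp [h]
        · by_cases h1 : y ∈ B i <;> by_cases h2 : y ∈ B l <;> simp [hil, h1, h2]
      simp only [e3, Finset.sum_sub_distrib]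
      rw [← Finset.sum_mul_sum, e1]
      congr 1
      rw [← e1]
      apply Finset.sum_congr rfl
      intro i hi
      rw [Finset.sum_ite_eq]
      simp [hi]
    rw [e1, e2]
    rcases Nat.lt_or_ge N 2 with h | h
    · interval_cases N <;> norm_num
    · have : (2 : ℝ) ≤ N := by exact_mod_cast h
      nlinarith
  have hIB : ∀ i, Integrable ((B i).indicator fun _ => (1 : ℝ)) μ := fun i =>
    (integrable_const 1).indicator (hB i)
  have hIB2 : ∀ i l, Integrable (fun y => if i = l then 0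
      else (B i ∩ B l).indicator (fun _ => (1 : ℝ)) y) μ := by
    intro i l
    by_cases h : i = l
    · simp [h]
    · simp only [h, if_false]
      exact (integrable_const 1).indicator ((hB i).inter (hB l))
  have hS : Integrable (fun y => ∑ i ∈ Finset.range K, (B i).indicator (fun _ => (1 : ℝ)) y) μ :=
    integrable_finsetSum _ fun i _ => hIB i
  have hS2 : Integrable (fun y => 2 * (∑ i ∈ Finset.range K, (B i).indicator (fun _ => (1 : ℝ)) y
      - 1)) μ := (hS.sub (integrable_const 1)).const_mul 2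
  have hD : Integrable (fun y => ∑ i ∈ Finset.range K, ∑ l ∈ Finset.range K,
      if i = l then 0 else (B i ∩ B l).indicator (fun _ => (1 : ℝ)) y) μ :=
    integrable_finsetSum _ fun i _ => integrable_finsetSum _ fun l _ => hIB2 i l
  have hint := integral_mono hS2 hD hpt
  have i1 : ∫ y, 2 * (∑ i ∈ Finset.range K, (B i).indicator (fun _ => (1 : ℝ)) y - 1) ∂μ
      = 2 * (K * μ.real A - 1) := by
    rw [integral_const_mul, integral_sub hS (integrable_const _),
      integral_finsetSum _ fun i _ => hIB i]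
    simp only [integral_const, probReal_univ, smul_eq_mul, mul_one]
    congr 2
    rw [Finset.sum_congr rfl fun i _ => show ∫ y, (B i).indicator (fun _ => (1 : ℝ)) y ∂μ
      = μ.real A by rw [integral_indicator_const _ (hB i), smul_eq_mul, mul_one, hBm]]
    simp
  have i2 : ∫ y, (∑ i ∈ Finset.range K, ∑ l ∈ Finset.range K,
      if i = l then 0 else (B i ∩ B l).indicator (fun _ => (1 : ℝ)) y) ∂μ ≤ 1 := by
    rw [integral_finsetSum _ fun i _ => integrable_finsetSum _ fun l _ => hIB2 i l]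
    calc _ ≤ ∑ i ∈ Finset.range K, ∑ l ∈ Finset.range K, 1 / (K : ℝ) ^ 2 := by
          apply Finset.sum_le_sum
          intro i hi
          rw [integral_finsetSum _ fun l _ => hIB2 i l]
          apply Finset.sum_le_sum
          intro l hl
          by_cases h : i = l
          · simp only [h, if_true, integral_zero]
            positivity
          · simp only [h, if_false]
            rw [integral_indicator_const _ ((hB i).inter (hB l)), smul_eq_mul, mul_one]
            exact (hpair i l (Finset.mem_range.mp hi) (Finset.mem_range.mp hl) h).le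
      _ = 1 := by
          simp only [Finset.sum_const, Finset.card_range, nsmul_eq_mul]
          field_simp
  have i3 : 2 * (K * μ.real A - 1) ≤ 1 := by
    rw [← i1]
    exact hint.trans i2
  linarith

end rec

section prod

variable {Y₁ Y₂ : Type*} [MeasurableSpace Y₁] [MeasurableSpace Y₂]

lemma iter_prod (R₁ : Y₁ → Y₁) (R₂ : Y₂ → Y₂) (k : ℕ) (z : Y₁ × Y₂) :
    (Prod.map R₁ R₂)^[k] z = (R₁^[k] z.1, R₂^[k] z.2) := by
  induction k generalizing z with
  | zero => rfl
  | succ k ih =>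
    rw [Function.iterate_succ_apply, ih, Function.iterate_succ_apply, Function.iterate_succ_apply]
    rfl

/-- displacement of `h` after `k` steps -/
noncomputable def disp {Y : Type*} [MeasurableSpace Y] (μ : Measure Y) (R : Y → Y) (h : Y → ℝ)
    (k : ℕ) : ℝ := ∫ y, |h (R^[k] y) - h y| ∂μ

lemma disp_add {Y : Type*} [MeasurableSpace Y] {μ : Measure Y} [IsProbabilityMeasure μ]
    {R : Y → Y} (hR : MeasurePreserving R μ μ) {h : Y → ℝ} (hh : Measurable h)
    (h1 : ∀ y, |h y| ≤ 1) (k l : ℕ) : disp μ R h (k + l) ≤ disp μ R h k + disp μ R h l := by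
  unfold disp
  have hm : ∀ k, Measurable fun y => h (R^[k] y) := fun k => hh.comp (hR.measurable.iterate k)
  have hd : ∀ k, Measurable fun y => |h (R^[k] y) - h y| := fun k => ((hm k).sub hh).abs
  have hI : ∀ k, Integrable (fun y => |h (R^[k] y) - h y|) μ := fun k =>
    integrable_of_bdd (C := 2) (hd k) fun y => by
      rw [abs_abs]
      have a := abs_le.mp (h1 (R^[k] y))
      have b := abs_le.mp (h1 y)
      rw [abs_le]
      constructor <;> linarith
  have e : ∫ y, |h (R^[k] y) - h y| ∂μ = ∫ y, |h (R^[k] (R^[l] y)) - h (R^[l] y)| ∂μ := by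
    conv_lhs => rw [← (hR.iterate l).map_eq]
    rw [integral_map (hR.iterate l).measurable.aemeasurable (hd k).aestronglyMeasurable]
  have hI2 : Integrable (fun y => |h (R^[k] (R^[l] y)) - h (R^[l] y)|) μ :=
    integrable_of_bdd (C := 2) ((hd k).comp (hR.measurable.iterate l)) fun y => by
      rw [abs_abs]
      have a := abs_le.mp (h1 (R^[k] (R^[l] y)))
      have b := abs_le.mp (h1 (R^[l] y))
      rw [abs_le]
      constructor <;> linarith
  rw [e, ← integral_add hI2 (hI l)]
  apply integral_mono (hI (k + l)) (hI2.add (hI l))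
  intro y
  simp only [Pi.add_apply]
  rw [Function.iterate_add_apply]
  have := abs_add_le (h (R^[k] (R^[l] y)) - h (R^[l] y)) (h (R^[l] y) - h y)
  simpa using this

lemma disp_mul {Y : Type*} [MeasurableSpace Y] {μ : Measure Y} [IsProbabilityMeasure μ]
    {R : Y → Y} (hR : MeasurePreserving R μ μ) {h : Y → ℝ} (hh : Measurable h)
    (h1 : ∀ y, |h y| ≤ 1) (t j : ℕ) : disp μ R h (t * j) ≤ j * disp μ R h t := by
  induction j with
  | zero => simp [disp]
  | succ j ih =>
    have := disp_add hR hh h1 (t * j) t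
    rw [Nat.mul_succ]
    push_cast
    linarith

/-- a set of positive measure meets one of the cells of a dense sequence in positive measure -/
lemma exists_cell {W Y : Type*} [MeasurableSpace W] [MeasurableSpace Y]
    [MeasurableSpace.CountablyGenerated Y] (lam : Measure W) (μ : Measure Y)
    [IsProbabilityMeasure μ] {h : W × Y → ℝ} (hh : Measurable h) (h1 : ∀ z, |h z| ≤ 1)
    {D : Set W} (hD : MeasurableSet D) (hpos : lam D ≠ 0) {δ : ℝ} (hδ : 0 < δ) :
    ∃ (g : Y → ℝ) (A : Set W), Measurable g ∧ Integrable g μ ∧ MeasurableSet A ∧ A ⊆ D ∧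
      lam A ≠ 0 ∧ ∀ w ∈ A, ∫ y, |h (w, y) - g y| ∂μ < δ := by
  obtain ⟨g, hg, hgi, hgd⟩ := exists_seq μ
  let C : ℕ → Set W := fun i => {w | ∫ y, |h (w, y) - g i y| ∂μ < δ}
  have hC : ∀ i, MeasurableSet (C i) := by
    intro i
    have hm : Measurable fun z : W × Y => |h z - g i z.2| :=
      (hh.sub ((hg i).comp measurable_snd)).abs
    have : Measurable fun w => ∫ y, |h (w, y) - g i y| ∂μ :=
      (hm.stronglyMeasurable.integral_prod_right').measurable
    exact measurableSet_lt this measurable_const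
  have hcov : D ⊆ ⋃ i, D ∩ C i := by
    intro w hw
    obtain ⟨i, hi⟩ := hgd (fun y => h (w, y)) (hh.comp measurable_prodMk_left) (fun y => h1 _) δ hδ
    exact Set.mem_iUnion.mpr ⟨i, hw, hi⟩
  obtain ⟨i, hi⟩ : ∃ i, lam (D ∩ C i) ≠ 0 := by
    by_contra hcon
    push Not at hcon
    apply hpos
    exact measure_mono_null hcov (measure_iUnion_null hcon)
  exact ⟨g i, D ∩ C i, hg i, hgi i, hD.inter (hC i), Set.inter_subset_left, hi,
    fun w hw => hw.2⟩

/-- triangle inequality through a common approximation -/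
lemma through {Y : Type*} [MeasurableSpace Y] {μ : Measure Y} [IsProbabilityMeasure μ]
    {R : Y → Y} (hR : MeasurePreserving R μ μ) {a b g : Y → ℝ} (ha : Measurable a)
    (hb : Measurable b) (hg : Measurable g) (ha1 : ∀ y, |a y| ≤ 1) (hb1 : ∀ y, |b y| ≤ 1)
    (hgi : Integrable g μ) {δ ε : ℝ} (k : ℕ)
    (h1 : ∫ y, |a y - g y| ∂μ < δ) (h2 : ∫ y, |b y - g y| ∂μ < δ)
    (h3 : ∫ y, |b (R^[k] y) - a y| ∂μ < ε) :
    ∫ y, |a (R^[k] y) - a y| ∂μ < 2 * δ + ε := by
  have hRk := hR.iterate k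
  have hia : Integrable a μ := integrable_of_bdd ha ha1
  have hib : Integrable b μ := integrable_of_bdd hb hb1
  have tr : ∀ u : Y → ℝ, Integrable u μ → Integrable (fun y => u (R^[k] y)) μ := fun u hu =>
    hRk.integrable_comp_of_integrable hu
  have e1 : ∫ y, |a (R^[k] y) - g (R^[k] y)| ∂μ = ∫ y, |a y - g y| ∂μ :=
    integral_iter hR (u := fun y => |a y - g y|) ((ha.sub hg).abs) k
  have e2 : ∫ y, |b (R^[k] y) - g (R^[k] y)| ∂μ = ∫ y, |b y - g y| ∂μ :=
    integral_iter hR (u := fun y => |b y - g y|) ((hb.sub hg).abs) k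
  have i1 : Integrable (fun y => |a (R^[k] y) - g (R^[k] y)|) μ := ((tr a hia).sub (tr g hgi)).abs
  have i2 : Integrable (fun y => |b (R^[k] y) - g (R^[k] y)|) μ := ((tr b hib).sub (tr g hgi)).abs
  have i3 : Integrable (fun y => |b (R^[k] y) - a y|) μ := ((tr b hib).sub hia).abs
  have i4 : Integrable (fun y => |a (R^[k] y) - a y|) μ := ((tr a hia).sub hia).abs
  have i12 : Integrable (fun y => |a (R^[k] y) - g (R^[k] y)| + |b (R^[k] y) - g (R^[k] y)|) μ :=
    i1.add i2
  have i123 : Integrable (fun y => (|a (R^[k] y) - g (R^[k] y)| + |b (R^[k] y) - g (R^[k] y)|)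
      + |b (R^[k] y) - a y|) μ := i12.add i3
  calc ∫ y, |a (R^[k] y) - a y| ∂μ
      ≤ ∫ y, ((|a (R^[k] y) - g (R^[k] y)| + |b (R^[k] y) - g (R^[k] y)|)
          + |b (R^[k] y) - a y|) ∂μ := by
        apply integral_mono i4 i123
        intro y
        simp only
        have t1 := abs_sub_le (a (R^[k] y)) (g (R^[k] y)) (a y)
        have t2 := abs_sub_le (g (R^[k] y)) (b (R^[k] y)) (a y)
        rw [abs_sub_comm (g (R^[k] y)) (b (R^[k] y))] at t2
        linarith
    _ = (∫ y, |a (R^[k] y) - g (R^[k] y)| ∂μ + ∫ y, |b (R^[k] y) - g (R^[k] y)| ∂μ)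
          + ∫ y, |b (R^[k] y) - a y| ∂μ := by
        rw [integral_add i12 i3, integral_add i1 i2]
    _ < 2 * δ + ε := by rw [e1, e2]; linarith

/-- from rigid sections to a function of the first coordinate -/
lemma sections_const {W Y : Type*} [MeasurableSpace W] [MeasurableSpace Y]
    {lam : Measure W} [IsProbabilityMeasure lam] {μ : Measure Y}
    [IsProbabilityMeasure μ] {R : Y → Y} (hRF : RF μ R) {h : W × Y → ℝ} (hh : Measurable h)
    (h1 : ∀ z, |h z| ≤ 1)
    (hsec : ∀ δ > 0, ∀ k₀ : ℕ, ∀ᵐ w ∂lam, ∃ k ≥ k₀, ∫ y, |h (w, R^[k] y) - h (w, y)| ∂μ < δ) :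
    ∀ᵐ w ∂lam, ∀ᵐ y ∂μ, h (w, y) = ∫ y', h (w, y') ∂μ := by
  have hall : ∀ᵐ w ∂lam, ∀ j k₀ : ℕ, ∃ k ≥ k₀,
      ∫ y, |h (w, R^[k] y) - h (w, y)| ∂μ < 1 / ((j : ℝ) + 1) := by
    rw [ae_all_iff]; intro j
    rw [ae_all_iff]; intro k₀
    exact hsec _ (by positivity) k₀
  filter_upwards [hall] with w hw
  obtain ⟨c, hc⟩ := hRF (fun y => h (w, y)) (hh.comp measurable_prodMk_left) (fun y => h1 _) (by
    intro δ hδ
    obtain ⟨j, hj⟩ := exists_nat_one_div_lt hδ
    rw [frequently_atTop]
    intro k₀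
    obtain ⟨k, hk, hk2⟩ := hw j k₀
    exact ⟨k, hk, hk2.trans hj⟩)
  have : ∫ y', h (w, y') ∂μ = c := by
    rw [integral_congr_ae hc]
    simp
  rw [this]
  exact hc

/-- Products of maps without rigid functions have no rigid functions. -/
theorem RF.prod {μ₁ : Measure Y₁} {μ₂ : Measure Y₂} [IsProbabilityMeasure μ₁]
    [IsProbabilityMeasure μ₂] [MeasurableSpace.CountablyGenerated Y₂] {R₁ : Y₁ → Y₁}
    {R₂ : Y₂ → Y₂} (hR₁ : MeasurePreserving R₁ μ₁ μ₁) (hR₂ : MeasurePreserving R₂ μ₂ μ₂)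
    (hRF₁ : RF μ₁ R₁) (hRF₂ : RF μ₂ R₂) : RF (μ₁.prod μ₂) (Prod.map R₁ R₂) := by
  intro h hh h1 hrig
  have hR : MeasurePreserving (Prod.map R₁ R₂) (μ₁.prod μ₂) (μ₁.prod μ₂) := hR₁.prod hR₂
  -- section displacement
  let D : ℕ → Y₁ → ℝ := fun k y₁ => ∫ y₂, |h (R₁^[k] y₁, R₂^[k] y₂) - h (y₁, y₂)| ∂μ₂
  have hmk : ∀ k, Measurable fun z : Y₁ × Y₂ => |h (R₁^[k] z.1, R₂^[k] z.2) - h z| := fun k =>
    ((hh.comp (((hR₁.measurable.iterate k).comp measurable_fst).prodMk
      ((hR₂.measurable.iterate k).comp measurable_snd))).sub hh).abs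
  have hbk : ∀ k (z : Y₁ × Y₂), |(|h (R₁^[k] z.1, R₂^[k] z.2) - h z|)| ≤ 2 := fun k z => by
    rw [abs_abs]
    have a := abs_le.mp (h1 (R₁^[k] z.1, R₂^[k] z.2))
    have b := abs_le.mp (h1 z)
    rw [abs_le]
    constructor <;> linarith
  have hIk : ∀ k, Integrable (fun z : Y₁ × Y₂ => |h (R₁^[k] z.1, R₂^[k] z.2) - h z|)
      (μ₁.prod μ₂) := fun k => integrable_of_bdd (hmk k) (hbk k)
  have hDm : ∀ k, Measurable (D k) := fun k =>
    ((hmk k).stronglyMeasurable.integral_prod_right').measurable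
  have hD0 : ∀ k y, 0 ≤ D k y := fun k y => integral_nonneg fun _ => abs_nonneg _
  have hDI : ∀ k, Integrable (D k) μ₁ := fun k => (hIk k).integral_prod_left
  have hDint : ∀ k, ∫ y₁, D k y₁ ∂μ₁ = disp (μ₁.prod μ₂) (Prod.map R₁ R₂) h k := by
    intro k
    unfold disp
    simp only [iter_prod]
    rw [integral_prod _ (hIk k)]
  -- the sections are rigid
  have hsec : ∀ δ > 0, ∀ k₀ : ℕ, ∀ᵐ y₁ ∂μ₁, ∃ k ≥ k₀,
      ∫ y₂, |h (y₁, R₂^[k] y₂) - h (y₁, y₂)| ∂μ₂ < δ := by
    intro δ hδ k₀
    let D₀ : Set Y₁ := {y₁ | ∀ k ≥ k₀, δ ≤ ∫ y₂, |h (y₁, R₂^[k] y₂) - h (y₁, y₂)| ∂μ₂}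
    have hD₀ : MeasurableSet D₀ := by
      have : D₀ = ⋂ k : ℕ, {y₁ | k₀ ≤ k → δ ≤ ∫ y₂, |h (y₁, R₂^[k] y₂) - h (y₁, y₂)| ∂μ₂} := by
        ext y
        simp only [D₀, Set.mem_iInter]
        rfl
      rw [this]
      apply MeasurableSet.iInter
      intro k
      by_cases hk : k₀ ≤ k
      · simp only [hk, true_implies]
        have hm : Measurable fun z : Y₁ × Y₂ => |h (z.1, R₂^[k] z.2) - h z| :=
          ((hh.comp (measurable_fst.prodMk
            ((hR₂.measurable.iterate k).comp measurable_snd))).sub hh).abs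
        exact measurableSet_le measurable_const
          (hm.stronglyMeasurable.integral_prod_right').measurable
      · simp only [hk, false_implies]
        exact MeasurableSet.univ
    suffices hnull : μ₁ D₀ = 0 by
      rw [ae_iff]
      convert hnull using 2
      ext y
      simp only [D₀, Set.mem_ofPred_eq, not_exists, not_and, not_lt, ge_iff_le]
    by_contra hpos
    obtain ⟨g, A, hg, hgi, hA, hAD, hApos, hAg⟩ :=
      exists_cell μ₁ μ₂ hh h1 hD₀ hpos (δ := δ / 4) (by positivity)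
    have ha : 0 < μ₁.real A := by
      rw [measureReal_def]
      exact ENNReal.toReal_pos hApos (measure_ne_top _ _)
    obtain ⟨K, hK⟩ : ∃ K : ℕ, 2 < K * μ₁.real A := by
      obtain ⟨K, hK⟩ := exists_nat_gt (2 / μ₁.real A)
      exact ⟨K, by rwa [div_lt_iff₀ ha] at hK⟩
    have hK0 : (0 : ℝ) < K := by
      by_contra hle
      have : (K : ℝ) * μ₁.real A ≤ 0 := mul_nonpos_of_nonpos_of_nonneg (not_lt.mp hle) ha.le
      linarith
    -- a time with small displacement
    have hsmall : 0 < δ / 4 * (1 / (K : ℝ) ^ 2) / (2 * K) := by positivity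
    obtain ⟨t, ht0, ht⟩ := (frequently_atTop.mp (hrig _ hsmall)) (max k₀ 1)
    obtain ⟨j, hj1, hj2, hj3⟩ := quant_rec (hR₁.iterate t) hA hK
    have htj : disp (μ₁.prod μ₂) (Prod.map R₁ R₂) h (t * j) < δ / 4 * (1 / (K : ℝ) ^ 2) := by
      have d1 := disp_mul hR hh h1 t j
      have d2 : disp (μ₁.prod μ₂) (Prod.map R₁ R₂) h t < δ / 4 * (1 / (K : ℝ) ^ 2) / (2 * K) := ht
      have d3 : (j : ℝ) ≤ K := by exact_mod_cast hj2
      have d4 : 0 ≤ disp (μ₁.prod μ₂) (Prod.map R₁ R₂) h t :=
        integral_nonneg fun _ => abs_nonneg _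
      calc _ ≤ (j : ℝ) * disp (μ₁.prod μ₂) (Prod.map R₁ R₂) h t := d1
        _ ≤ K * disp (μ₁.prod μ₂) (Prod.map R₁ R₂) h t := mul_le_mul_of_nonneg_right d3 d4
        _ < K * (δ / 4 * (1 / (K : ℝ) ^ 2) / (2 * K)) * 2 := by nlinarith
        _ = _ := by field_simp
    -- Markov
    let M : Set Y₁ := {y₁ | δ / 4 ≤ D (t * j) y₁}
    have hM : MeasurableSet M := measurableSet_le measurable_const (hDm _)
    have hMarkov : δ / 4 * μ₁.real M ≤ ∫ y₁, D (t * j) y₁ ∂μ₁ :=
      mul_meas_ge_le_integral_of_nonneg (Eventually.of_forall fun y => hD0 _ y) (hDI _) _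
    have hMlt : μ₁.real M < 1 / (K : ℝ) ^ 2 := by
      rw [hDint] at hMarkov
      have : δ / 4 * μ₁.real M < δ / 4 * (1 / (K : ℝ) ^ 2) := lt_of_le_of_lt hMarkov htj
      exact lt_of_mul_lt_mul_left this (by positivity)
    obtain ⟨y, hyA, hyM⟩ : ∃ y ∈ A ∩ (R₁^[t])^[j] ⁻¹' A, y ∉ M := by
      by_contra hcon
      push Not at hcon
      have hsub : A ∩ (R₁^[t])^[j] ⁻¹' A ⊆ M := hcon
      have := measureReal_mono (μ := μ₁) hsub
      linarith
    have hiter : (R₁^[t])^[j] = R₁^[t * j] := (Function.iterate_mul R₁ t j).symm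
    rw [hiter] at hyA
    have hyA2 : R₁^[t * j] y ∈ A := hyA.2
    have hyM2 : D (t * j) y < δ / 4 := not_le.mp hyM
    have hfin := through hR₂ (a := fun y₂ => h (y, y₂)) (b := fun y₂ => h (R₁^[t * j] y, y₂))
      (hh.comp measurable_prodMk_left) (hh.comp measurable_prodMk_left) hg (fun _ => h1 _)
      (fun _ => h1 _) hgi (t * j) (hAg y hyA.1) (hAg _ hyA2) hyM2
    have hge : k₀ ≤ t * j := by
      have h2 : k₀ ≤ t := (le_max_left _ _).trans ht0
      exact h2.trans (Nat.le_mul_of_pos_right t hj1)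
    have := (hAD hyA.1) (t * j) hge
    linarith
  have hconst := sections_const hRF₂ hh h1 hsec
  -- the function of the first coordinate
  let C : Y₁ → ℝ := fun y₁ => ∫ y₂, h (y₁, y₂) ∂μ₂
  have hCm : Measurable C := (hh.stronglyMeasurable.integral_prod_right').measurable
  have hC1 : ∀ y, |C y| ≤ 1 := by
    intro y
    refine (abs_integral_le_integral_abs).trans ?_
    calc ∫ y₂, |h (y, y₂)| ∂μ₂ ≤ ∫ _, (1 : ℝ) ∂μ₂ := by
          apply integral_mono
          · exact (integrable_of_bdd (hh.comp measurable_prodMk_left) fun y₂ => h1 (y, y₂)).abs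
          · exact integrable_const _
          · intro y₂; exact h1 _
      _ = 1 := by simp
  obtain ⟨c, hc⟩ := hRF₁ C hCm hC1 (by
    intro δ hδ
    refine (hrig δ hδ).mono fun k hk => ?_
    refine lt_of_le_of_lt ?_ hk
    have e1 : ∫ z, |h ((Prod.map R₁ R₂)^[k] z) - h z| ∂(μ₁.prod μ₂) = ∫ y₁, D k y₁ ∂μ₁ :=
      (hDint k).symm
    rw [e1]
    apply integral_mono
    · exact integrable_of_bdd (C := 2) ((hCm.comp (hR₁.measurable.iterate k)).sub hCm).abs
        fun y => by
          rw [abs_abs]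
          have a := abs_le.mp (hC1 (R₁^[k] y))
          have b := abs_le.mp (hC1 y)
          rw [abs_le]
          constructor <;> linarith
    · exact hDI k
    · intro y₁
      simp only
      have e2 : C (R₁^[k] y₁) = ∫ y₂, h (R₁^[k] y₁, R₂^[k] y₂) ∂μ₂ :=
        (integral_iter hR₂ (u := fun y₂ => h (R₁^[k] y₁, y₂))
          (hh.comp measurable_prodMk_left) k).symm
      have i1 : Integrable (fun y₂ => h (R₁^[k] y₁, R₂^[k] y₂)) μ₂ :=
        integrable_of_bdd (C := 1) ((hh.comp measurable_prodMk_left).comp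
          (hR₂.measurable.iterate k)) fun y₂ => h1 _
      have i2 : Integrable (fun y₂ => h (y₁, y₂)) μ₂ :=
        integrable_of_bdd (C := 1) (hh.comp measurable_prodMk_left) fun y₂ => h1 _
      have e3 : C y₁ = ∫ y₂, h (y₁, y₂) ∂μ₂ := rfl
      rw [e2, e3, ← integral_sub i1 i2]
      exact abs_integral_le_integral_abs)
  refine ⟨c, ?_⟩
  have hset : MeasurableSet {z : Y₁ × Y₂ | h z = c} := hh (measurableSet_singleton c)
  rw [Measure.ae_prod_iff_ae_ae hset]
  filter_upwards [hconst, hc] with y₁ h2 h3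
  filter_upwards [h2] with y₂ h4
  rw [h4]
  exact h3

end prod

end Pool.Agent.H52M
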