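import Pool.Agent.H52M.Pi
import Pool.Agent.H52J.Step

/-! One coordinate at a time, for maps without rigid functions. -/

set_option linter.style.longLine false
set_option linter.unusedSectionVars false
set_option linter.style.header false

namespace Pool.Agent.H52M

open MeasureTheory Filter Topology
open Pool.Agent.H52J (skew dd diffSet measurable_skew measurePreserving_skew measurableSet_diffSet
  measurable_dd dd_symm dd_diag dd_le dd_shift integral_dd iter_pi)

variable {W F : Type*} [MeasurableSpace W] [MeasurableSpace F]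

lemma dd_tri {m : Measure F} [IsProbabilityMeasure m] {T₀ : W → W} {φ : W → F → F}
    (B : Set F) (w : W) (n l k : ℕ) :
    dd m T₀ φ B w n k ≤ dd m T₀ φ B w n l + dd m T₀ φ B w l k := by
  unfold dd
  refine (measureReal_mono ?_ (measure_ne_top _ _)).trans (measureReal_union_le _ _)
  intro f
  simp only [diffSet, Set.mem_preimage, Set.mem_ofPred_eq, Set.mem_union]
  tauto

/-- full coordinates before `K`, base coordinates from `K` on -/
def mixA {n : ℕ} (f₀ : F) (K : ℕ) (x : Fin n → W × F) (i : Fin n) : W × F :=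
  if i.1 < K then x i else ((x i).1, f₀)

/-- full coordinates before `K`, nothing at `K`, base coordinates after `K` -/
def mixB {n : ℕ} (f₀ : F) (z₀ : W × F) (K : ℕ) (x : Fin n → W × F) (i : Fin n) : W × F :=
  if i.1 < K then x i else if i.1 = K then z₀ else ((x i).1, f₀)

lemma measurable_mixA {n : ℕ} (f₀ : F) (K : ℕ) :
    Measurable (mixA f₀ K : (Fin n → W × F) → Fin n → W × F) := by
  apply measurable_pi_lambda
  intro i
  unfold mixA
  split_ifs
  · exact measurable_pi_apply i
  · exact (measurable_fst.comp (measurable_pi_apply i)).prodMk measurable_const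

lemma measurable_mixB {n : ℕ} (f₀ : F) (z₀ : W × F) (K : ℕ) :
    Measurable (mixB f₀ z₀ K : (Fin n → W × F) → Fin n → W × F) := by
  apply measurable_pi_lambda
  intro i
  unfold mixB
  split_ifs
  · exact measurable_pi_apply i
  · exact measurable_const
  · exact (measurable_fst.comp (measurable_pi_apply i)).prodMk measurable_const

/-- the map on the mixed system -/
def mixR {n : ℕ} (T : W × F ≃ᵐ W × F) (T₀ : W ≃ᵐ W) (K : ℕ) :
    (Fin n → W × F) ≃ᵐ (Fin n → W × F) :=
  MeasurableEquiv.piCongrRight fun i =>
    if i.1 < K then T else if i.1 = K then MeasurableEquiv.refl _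
    else T₀.prodCongr (MeasurableEquiv.refl F)

lemma mixR_apply {n : ℕ} (T : W × F ≃ᵐ W × F) (T₀ : W ≃ᵐ W) (K : ℕ) (x : Fin n → W × F)
    (i : Fin n) : mixR T T₀ K x i
      = if i.1 < K then T (x i) else if i.1 = K then x i else (T₀ (x i).1, (x i).2) := by
  unfold mixR
  show (if i.1 < K then T else if i.1 = K then MeasurableEquiv.refl _
    else T₀.prodCongr (MeasurableEquiv.refl F)) (x i) = _
  split_ifs <;> rfl

lemma mixB_comm {n : ℕ} {T : W × F ≃ᵐ W × F} {T₀ : W ≃ᵐ W} (hT : ∀ x, (T x).1 = T₀ x.1)
    (f₀ : F) (z₀ : W × F) (K : ℕ) (x : Fin n → W × F) :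
    mixB f₀ z₀ K (fun i => T (x i)) = mixR T T₀ K (mixB f₀ z₀ K x) := by
  funext i
  rw [mixR_apply]
  unfold mixB
  split_ifs
  · rfl
  · rfl
  · simp only [hT]

section

variable {lam : Measure W} [IsProbabilityMeasure lam] {m : Measure F} [IsProbabilityMeasure m]
  [StandardBorelSpace W] [StandardBorelSpace F]

/-- one more coordinate -/
lemma law_succ {n K : ℕ} (T₀ : W ≃ᵐ W) (hT₀ : MeasurePreserving T₀ lam lam)
    {φ : W → F → F} (hφ : Measurable (Function.uncurry φ))
    (hφm : ∀ w, MeasurePreserving (φ w) m m)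
    (T : W × F ≃ᵐ W × F) (hT : (T : W × F → W × F) = skew T₀ φ)
    (hRF : RF (lam.prod m) T)
    (hrec : ∀ B : Set F, MeasurableSet B → ∀ ε > 0, ∀ᵐ w ∂lam, ∃ᶠ k in atTop,
      dd m T₀ φ B w 0 k < ε)
    {ν : Measure (Fin n → W × F)} [IsProbabilityMeasure ν]
    (hν : MeasurePreserving (fun x i => T (x i)) ν ν)
    (hmarg : ∀ j, ν.map (fun x => x j) = lam.prod m) (f₀ : F) (z₀ : W × F)
    (hF : ν.map (mixA f₀ K) = (Measure.pi fun _ => lam.prod m).map (mixA f₀ K))
    {k₁ : Fin n} (hk₁ : k₁.1 = K) :
    ν.map (mixA f₀ (K + 1)) = (Measure.pi fun _ => lam.prod m).map (mixA f₀ (K + 1)) := by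
  classical
  have hm : Measurable (skew T₀ φ) := measurable_skew hT₀ hφ
  have hTmp : MeasurePreserving T (lam.prod m) (lam.prod m) := by
    rw [hT]; exact measurePreserving_skew hT₀ hφ hφm
  have hTfst : ∀ x, (T x).1 = T₀ x.1 := by
    intro x
    rw [hT]
    rfl
  let Pi : Measure (Fin n → W × F) := Measure.pi fun _ => lam.prod m
  let g : (Fin n → W × F) → (Fin n → W × F) := mixB f₀ z₀ K
  have hg : Measurable g := measurable_mixB f₀ z₀ K
  let μY : Measure (Fin n → W × F) := Pi.map g
  have hμY : IsProbabilityMeasure μY := Measure.isProbabilityMeasure_map hg.aemeasurable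
  have hTn : MeasurePreserving (fun (x : Fin n → W × F) j => T (x j)) Pi Pi :=
    measurePreserving_pi _ _ fun _ => hTmp
  have hgp : MeasurePreserving g Pi μY := ⟨hg, rfl⟩
  let R : (Fin n → W × F) ≃ᵐ (Fin n → W × F) := mixR T T₀ K
  have hgR : ∀ x, g (fun i => T (x i)) = R (g x) := fun x => mixB_comm hTfst f₀ z₀ K x
  have hR : MeasurePreserving R μY μY := by
    refine ⟨R.measurable, ?_⟩
    have e : R ∘ g = g ∘ fun (x : Fin n → W × F) j => T (x j) := by
      funext x
      exact (hgR x).symm
    show (Pi.map g).map R = Pi.map g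
    rw [Measure.map_map R.measurable hg, e, ← Measure.map_map hg hTn.measurable, hTn.map_eq]
  have hRFY : RF μY R := RF.factor (RF.pi hTmp hRF n) hgp hgR R.measurable
  -- independence in the product measure
  have hgK : ∀ x a, g (Function.update x k₁ a) = g x := by
    intro x a
    funext i
    simp only [g, mixB]
    by_cases hi : i = k₁
    · subst hi
      rw [if_neg (by omega), if_pos hk₁, if_neg (by omega), if_pos hk₁]
    · rw [Function.update_of_ne hi]
  have hpairPi : Pi.map (fun x => (x k₁, g x)) = (lam.prod m).prod μY := law_pair k₁ hg hgK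
  -- the law of base point and mixed system
  let w : (Fin n → W × F) → W := fun ω => (ω k₁).1
  have hwm : Measurable w := measurable_fst.comp (measurable_pi_apply k₁)
  have hwg : Measurable fun ω => (w ω, g ω) := hwm.prodMk hg
  have hcompA : (fun ω => (w ω, g ω)) ∘ (mixA f₀ K) = fun ω : Fin n → W × F => (w ω, g ω) := by
    funext ω
    have e1 : w (mixA f₀ K ω) = w ω := by
      simp only [w, mixA]
      split_ifs <;> rfl
    have e2 : g (mixA f₀ K ω) = g ω := by
      funext i
      simp only [g, mixB, mixA]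
      split_ifs <;> rfl
    simp only [Function.comp_apply, e1, e2]
  have hlawPi : Pi.map (fun ω => (w ω, g ω)) = lam.prod μY := by
    have e : (fun ω => (w ω, g ω)) = (Prod.map Prod.fst id) ∘ fun x => (x k₁, g x) := rfl
    rw [e, ← Measure.map_map (measurable_fst.prodMap measurable_id)
      ((measurable_pi_apply k₁).prodMk hg), hpairPi, ← Measure.map_prod_map _ _ measurable_fst
      measurable_id, Measure.map_id, Measure.map_fst_prod, measure_univ, one_smul]
  have hlaw : ν.map (fun ω => (w ω, g ω)) = lam.prod μY := by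
    rw [← hlawPi, ← hcompA, ← Measure.map_map hwg (measurable_mixA f₀ K),
      ← Measure.map_map hwg (measurable_mixA f₀ K), hF]
  -- conditional independence
  have hrect : ∀ (A : Set W) (B : Set F) (C : Set (Fin n → W × F)), MeasurableSet A →
      MeasurableSet B → MeasurableSet C →
      ν.real (w ⁻¹' A ∩ g ⁻¹' C ∩ {ω | (ω k₁).2 ∈ B}) = lam.real A * m.real B * μY.real C := by
    intro A B C hA hB hC
    have hBm : MeasurableSet {ω : Fin n → W × F | (ω k₁).2 ∈ B} :=
      (measurable_snd.comp (measurable_pi_apply k₁)) hB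
    have h1 := indep_of_rec ν lam μY hν T₀ hT₀ R hR hRFY hwm (fun ω => hTfst _) hg
      (fun ω => hgR ω) hlaw hBm (d := dd m T₀ φ B) (measurable_dd hm hB) (dd_le B)
      (by
        intro k A hA
        rw [integral_dd hm hB hA]
        have hD1 := measurableSet_diffSet hm hB 0 k
        have e1 : ∀ ω : Fin n → W × F,
            |({ω : Fin n → W × F | (ω k₁).2 ∈ B}.indicator (fun _ => (1 : ℝ)))
                ((fun (x : Fin n → W × F) i => T (x i))^[k] ω)
              - ({ω : Fin n → W × F | (ω k₁).2 ∈ B}.indicator (fun _ => (1 : ℝ))) ω|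
            = ((fun x : Fin n → W × F => x k₁) ⁻¹' (diffSet T₀ φ B 0 k)).indicator
              (fun _ => (1 : ℝ)) ω := by
          intro ω
          simp only [Set.indicator_apply, Set.mem_ofPred_eq, iter_pi, Set.mem_preimage, diffSet,
            hT, Function.iterate_zero, id]
          by_cases h1 : ((skew T₀ φ)^[k] (ω k₁)).2 ∈ B <;>
            by_cases h2 : (ω k₁).2 ∈ B <;> simp [h1, h2]
        simp only [e1]
        rw [integral_indicator ((measurable_pi_apply k₁) hD1), setIntegral_const, smul_eq_mul,
          mul_one, measureReal_restrict_apply ((measurable_pi_apply k₁) hD1), ← hmarg k₁,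
          map_measureReal_apply (measurable_pi_apply k₁) ((measurable_fst hA).inter hD1)]
        congr 1
        rw [Set.inter_comm]
        rfl)
      (by
        intro A hA hpos ε hε k₀
        exact joint_rec lam hT₀ (measurable_dd hm hB) (dd_symm B) (dd_diag B)
          (dd_tri B) (dd_shift hm hφm hB) (hrec B hB) hA hpos hε k₀) hA hC
    rw [h1]
    congr 1
    have h2 : w ⁻¹' A ∩ {ω : Fin n → W × F | (ω k₁).2 ∈ B}
        = (fun x : Fin n → W × F => x k₁) ⁻¹' (A ×ˢ B) := by
      ext ω
      simp [w]
    rw [h2, ← map_measureReal_apply (measurable_pi_apply k₁) (hA.prod hB), hmarg k₁,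
      measureReal_def, Measure.prod_prod, ENNReal.toReal_mul]
    rfl
  -- law of the full coordinate and the mixed system
  have hpairν : ν.map (fun x => (x k₁, g x)) = (lam.prod m).prod μY := by
    symm
    apply Measure.prod_eq
    intro s C hs hC
    let Z : Set (Fin n → W × F) := g ⁻¹' C
    have hZ : MeasurableSet Z := hg hC
    let M1 : Measure (W × F) := (ν.restrict Z).map fun ω => ω k₁
    have hM1 : ∀ s, MeasurableSet s → M1 s = ν ((fun ω : Fin n → W × F => ω k₁) ⁻¹' s ∩ Z) := by
      intro s hs
      simp only [M1]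
      rw [Measure.map_apply (measurable_pi_apply k₁) hs,
        Measure.restrict_apply ((measurable_pi_apply k₁) hs)]
    have hfin : IsFiniteMeasure (μY C • lam) := by
      refine ⟨?_⟩
      rw [Measure.smul_apply, measure_univ, smul_eq_mul, mul_one]
      exact measure_lt_top _ _
    have hprod : (μY C • lam).prod m = M1 := by
      apply Measure.prod_eq
      intro A B hA hB
      rw [hM1 _ (hA.prod hB), Measure.smul_apply, smul_eq_mul]
      have h1 := hrect A B C hA hB hC
      have h2 : (fun ω : Fin n → W × F => ω k₁) ⁻¹' (A ×ˢ B) ∩ Z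
          = w ⁻¹' A ∩ g ⁻¹' C ∩ {ω | (ω k₁).2 ∈ B} := by
        ext ω
        simp only [Set.mem_inter_iff, Set.mem_preimage, Set.mem_prod, Z, w, Set.mem_ofPred_eq]
        tauto
      rw [h2]
      have hne : ν (w ⁻¹' A ∩ g ⁻¹' C ∩ {ω | (ω k₁).2 ∈ B}) ≠ ⊤ := measure_ne_top _ _
      have hne2 : μY C * lam A * m B ≠ ⊤ :=
        ENNReal.mul_ne_top (ENNReal.mul_ne_top (measure_ne_top _ _) (measure_ne_top _ _))
          (measure_ne_top _ _)
      rw [← ENNReal.toReal_eq_toReal_iff' hne hne2, ENNReal.toReal_mul, ENNReal.toReal_mul]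
      have h3 : (ν (w ⁻¹' A ∩ g ⁻¹' C ∩ {ω | (ω k₁).2 ∈ B})).toReal
          = (lam A).toReal * (m B).toReal * (μY C).toReal := h1
      rw [h3]
      ring
    have hset : (fun x : Fin n → W × F => (x k₁, g x)) ⁻¹' (s ×ˢ C)
        = (fun ω : Fin n → W × F => ω k₁) ⁻¹' s ∩ Z := by
      ext ω
      simp [Z]
    rw [Measure.map_apply ((measurable_pi_apply k₁).prodMk hg) (hs.prod hC), hset, ← hM1 s hs,
      ← hprod, Measure.prod_smul_left, Measure.smul_apply, smul_eq_mul, mul_comm]
  -- conclusion
  have hupd := measurable_upd (X := W × F) k₁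
  have e : (mixA f₀ (K + 1) : (Fin n → W × F) → Fin n → W × F)
      = (fun p : (W × F) × (Fin n → W × F) => Function.update p.2 k₁ p.1)
        ∘ fun x => (x k₁, g x) := by
    funext x i
    simp only [Function.comp_apply]
    by_cases hi : i = k₁
    · subst hi
      rw [Function.update_self]
      simp only [mixA]
      rw [if_pos (by omega)]
    · rw [Function.update_of_ne hi]
      have hne : i.1 ≠ K := fun h => hi (Fin.ext (h.trans hk₁.symm))
      simp only [mixA, g, mixB]
      by_cases h : i.1 < K
      · rw [if_pos (by omega), if_pos h]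
      · rw [if_neg (by omega), if_neg h, if_neg hne]
  have hpm : Measurable fun x : Fin n → W × F => (x k₁, g x) := (measurable_pi_apply k₁).prodMk hg
  rw [e, ← Measure.map_map hupd hpm, ← Measure.map_map hupd hpm, hpairν]
  show _ = (Pi.map fun x => (x k₁, g x)).map _
  rw [hpairPi]

/-- joinings over an independent base are products -/
theorem eq_pi {n : ℕ} (T₀ : W ≃ᵐ W) (hT₀ : MeasurePreserving T₀ lam lam)
    {φ : W → F → F} (hφ : Measurable (Function.uncurry φ))
    (hφm : ∀ w, MeasurePreserving (φ w) m m)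
    (T : W × F ≃ᵐ W × F) (hT : (T : W × F → W × F) = skew T₀ φ)
    (hRF : RF (lam.prod m) T)
    (hrec : ∀ B : Set F, MeasurableSet B → ∀ ε > 0, ∀ᵐ w ∂lam, ∃ᶠ k in atTop,
      dd m T₀ φ B w 0 k < ε)
    {ν : Measure (Fin n → W × F)} [IsProbabilityMeasure ν]
    (hν : MeasurePreserving (fun x i => T (x i)) ν ν)
    (hmarg : ∀ j, ν.map (fun x => x j) = lam.prod m)
    (hbase : ν.map (fun x j => (x j).1) = Measure.pi fun _ => lam) :
    ν = Measure.pi fun _ => lam.prod m := by
  obtain ⟨f₀⟩ : Nonempty F := nonempty_of_isProbabilityMeasure m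
  obtain ⟨z₀⟩ : Nonempty (W × F) := nonempty_of_isProbabilityMeasure (lam.prod m)
  have hmb : Measurable fun (x : Fin n → W × F) j => (x j).1 :=
    measurable_pi_lambda _ fun j => measurable_fst.comp (measurable_pi_apply j)
  have h0 : ν.map (mixA f₀ 0) = (Measure.pi fun _ => lam.prod m).map (mixA f₀ 0) := by
    have hc : Measurable fun (u : Fin n → W) i => (u i, f₀) :=
      measurable_pi_lambda _ fun j => (measurable_pi_apply j).prodMk measurable_const
    have e : (mixA f₀ 0 : (Fin n → W × F) → Fin n → W × F)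
        = (fun (u : Fin n → W) i => (u i, f₀)) ∘ fun x j => (x j).1 := by
      funext x i
      simp [mixA]
    have h2 : (Measure.pi fun _ : Fin n => lam.prod m).map (fun x j => (x j).1)
        = Measure.pi fun _ => lam := by
      rw [Measure.pi_map_pi (fun _ => measurable_fst.aemeasurable)]
      congr 1
      funext j
      rw [Measure.map_fst_prod, measure_univ, one_smul]
    rw [e, ← Measure.map_map hc hmb, ← Measure.map_map hc hmb, hbase, h2]
  have hall : ∀ K, K ≤ n → ν.map (mixA f₀ K) = (Measure.pi fun _ => lam.prod m).map (mixA f₀ K) := by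
    intro K
    induction K with
    | zero => exact fun _ => h0
    | succ K ih =>
      intro hK
      exact law_succ T₀ hT₀ hφ hφm T hT hRF hrec hν hmarg f₀ z₀ (ih (by omega))
        (k₁ := ⟨K, by omega⟩) rfl
  have hid : (mixA f₀ n : (Fin n → W × F) → Fin n → W × F) = id := by
    funext x i
    simp [mixA, i.2]
  have := hall n le_rfl
  rwa [hid, Measure.map_id, Measure.map_id] at this

end

end Pool.Agent.H52M
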